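import Pool.Agent.Y554.DP.Defs

/-!
Exceptional times of dynamical critical bond percolation on `ℤ²`: local dimension, infinite
clusters and graphs.
-/

set_option autoImplicit false

namespace Pool.Agent.Y554.DP

open H974 H12S H985T H389NS Finset MeasureTheory

/-- The exceptional times in the interval `[s, s + δ]`. -/
def EI {Ω : Type*} (X : ℕ → ℕ → Set Edg → Prop) (ω : ℝ → Ω → Edg → Bool) (s δ : ℝ) (w : Ω) :
    Set ℝ :=
  {t | s ≤ t ∧ t ≤ s + δ ∧ ∃ a : ℕ, ∀ R : ℕ, X (a + 1) (a + 1 + R) (opE ω t w)}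

/-- Shift of the time. -/
def S_SHIFT : Prop := ∀ (Ω : Type) [MeasurableSpace Ω] (μ : Measure Ω) [IsProbabilityMeasure μ]
      (ω : ℝ → Ω → Edg → Bool), IsDP μ ω → ∀ s : ℝ, 0 ≤ s → IsDP μ (fun t => ω (s + t))

/-- LOCAL lower bound. -/
def S_DIMLOC : Prop := ∀ (X : ℕ → ℕ → Set Edg → Prop) (α : ℝ), ArmFam X α →
    ∀ (Ω : Type) [MeasurableSpace Ω] (μ : Measure Ω) [IsProbabilityMeasure μ]
      (ω : ℝ → Ω → Edg → Bool), IsDP μ ω → ∀ s δ : ℝ, 0 ≤ s → 0 < δ → δ ≤ 1 →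
      ∀ᵐ w ∂μ, ENNReal.ofReal (1 - 4 / 3 * α) ≤ dimH (EI X ω s δ w)

/-- An infinite open cluster. -/
def S_INF1 : Prop := ∀ F : Set Edg, (∃ v : Vtx, {u | Reach F v u}.Infinite) ↔
    ∃ a : ℕ, ∀ R : ℕ, OA (a + 1) (a + 1 + R) F

/-- An infinite open cluster and an infinite dual cluster. -/
def S_INF2 : Prop := ∀ F : Set Edg, ((∃ v : Vtx, {u | Reach F v u}.Infinite) ∧
      ∃ f : Vtx, {g | DReach Fᶜ f g}.Infinite) ↔
    ∃ a : ℕ, ∀ R : ℕ, AA (a + 1) (a + 1 + R) F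

/-- The graph of the open edges. -/
def bG (η : Edg → Bool) : SimpleGraph (ℤ × ℤ) :=
  SimpleGraph.fromRel (fun u v =>
    (v = (u.1 + 1, u.2) ∧ η (u.1, u.2, true) = true) ∨
      (v = (u.1, u.2 + 1) ∧ η (u.1, u.2, false) = true))

/-- The graph of the open dual edges. -/
def wG (η : Edg → Bool) : SimpleGraph (ℤ × ℤ) :=
  SimpleGraph.fromRel (fun f g =>
    (g = (f.1 + 1, f.2) ∧ η (g.1, g.2, false) = false) ∨
      (g = (f.1, f.2 + 1) ∧ η (g.1, g.2, true) = false))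

/-- Clusters as components of the graphs. -/
def S_GR : Prop := ∀ η : Edg → Bool,
    ((∃ C : (bG η).ConnectedComponent, C.supp.Infinite) ↔
      ∃ v : Vtx, {u | Reach {e | η e = true} v u}.Infinite) ∧
    ((∃ C : (wG η).ConnectedComponent, C.supp.Infinite) ↔
      ∃ v : Vtx, {u | DReach {e | η e = true}ᶜ v u}.Infinite)

end Pool.Agent.Y554.DP
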