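import Pool.Agent.Y554.DP.Defs
import Pool.Agent.H389R2.NS.D4

/-! The integrated two-layer four-arm probability for every exponent smaller than `3/4`
(the proofs of `H389NS.pair_bound`, `H389NS.D4w.step`, `H389NS.a42_bound` with parameters). -/

set_option autoImplicit false

namespace Pool.Agent.Y554.DP

open H974 H12S H389NS Finset

/-- D3 with the exponent `lam`. -/
theorem pair_bound_lam {lam : ℝ} (hns : S_NS lam) :
    ∃ C c : ℝ, 0 < C ∧ 0 < c ∧ ∀ (L m r ρ : ℕ), 2 ≤ L → 1 ≤ r → 8 * r ≤ ρ →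
    64 * ρ ≤ m → ∀ (σ σ' : Bool) (k k' : ℤ), |2 * (r:ℤ) * k| ≤ (L * m : ℕ) + (r:ℤ) →
    |2 * (r:ℤ) * k'| ≤ (L * m : ℕ) + (r:ℤ) → ∀ x : ℝ, 0 ≤ x → x ≤ 1 →
      (∫ y in (0:ℝ)..x, ∑ e ∈ boxE (m / 4), P2 (fun _ => y) (SR L m)
          (fun F => Sev L m r ρ σ (2 * r * k) σ' (2 * r * k') e ↑F)
          (fun F => Sev L m r ρ σ (2 * r * k) σ' (2 * r * k') e ↑F)) ≤ 4 ∧
      (x ≤ 1 - (m:ℝ) ^ (-lam) →
        (∫ y in (0:ℝ)..x, ∑ e ∈ boxE (m / 4), P2 (fun _ => y) (SR L m)
          (fun F => Sev L m r ρ σ (2 * r * k) σ' (2 * r * k') e ↑F)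
          (fun F => Sev L m r ρ σ (2 * r * k) σ' (2 * r * k') e ↑F)) ≤ C * (m:ℝ) ^ (-c)) := by
  obtain ⟨C, c, hC, hc, hNS⟩ := hns
  refine ⟨4 * C, c, by positivity, hc, ?_⟩
  intro L m r ρ hL hr hρ hm σ σ' k k' hk hk' x hx0 hx1
  obtain ⟨p, S, O, I, J, I', J', hD, hSub, hDis, hR, hO, hZ, hPv⟩ :=
    env_rect hL hr hρ hm σ σ' k k' hk hk'
  have hV : boxE m ⊆ SR L m := d3_boxE_sub hL
  have hB : boxE (m / 4) ⊆ boxE m := boxE_mono (Nat.div_le_self _ _)
  have hm1 : 1 ≤ m := by omega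
  have main : (∫ y in (0:ℝ)..x, ∑ e ∈ boxE (m / 4), P2 (fun _ => y) (SR L m)
          (fun F => Sev L m r ρ σ (2 * r * k) σ' (2 * r * k') e ↑F)
          (fun F => Sev L m r ρ σ (2 * r * k) σ' (2 * r * k') e ↑F)) ≤
      4 * ∑ T ∈ (boxE m).powerset.filter (fun T => ¬ Disjoint T (boxE (m / 4))),
        sp p S (boxE m) (fC I J) T * x ^ T.card := by
    refine d3_int (h := fun e y => P2 (fun _ => y) (SR L m)
          (fun F => Sev L m r ρ σ (2 * r * k) σ' (2 * r * k') e ↑F)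
          (fun F => Sev L m r ρ σ (2 * r * k) σ' (2 * r * k') e ↑F)) ?_ hx0 ?_ ?_
    · intro T _
      exact d3_sp_nonneg hD.ok _ _ _ _
    · intro e _
      exact P2_cont (fun y _ => y) (fun _ => continuous_id) _ _ _
    · intro e he y hy0 hy1
      exact d3_point hDis hSub hR hO hZ hV (hB he)
        (fun F hF hS => hPv e (hV (hB he)) F hF hS) hy0 (hy1.trans hx1)
  refine ⟨main.trans ?_, fun hx => main.trans ?_⟩
  · have h1 : ∑ T ∈ (boxE m).powerset.filter (fun T => ¬ Disjoint T (boxE (m / 4))),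
        sp p S (boxE m) (fC I J) T * x ^ T.card ≤ 1 := by
      refine le_trans ?_ (d3_sum_le_one hD.ok hD.sub hD.fair I J)
      refine le_trans (Finset.sum_le_sum (g := fun T => sp p S (boxE m) (fC I J) T) ?_) ?_
      · intro T _
        have := pow_le_one₀ hx0 hx1 (n := T.card)
        have h2 := d3_sp_nonneg hD.ok S (boxE m) (fC I J) T
        nlinarith
      · exact Finset.sum_le_sum_of_subset_of_nonneg (Finset.filter_subset _ _)
          (fun T _ _ => d3_sp_nonneg hD.ok _ _ _ _)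
    linarith
  · have h1 := hNS m hm1 p S I J I' J' hD x hx0 hx
    have h2 : ∑ T ∈ (boxE m).powerset.filter (fun T => ¬ Disjoint T (boxE (m / 4))),
        sp p S (boxE m) (fC I J) T * x ^ T.card ≤
        ∑ T ∈ (boxE m).powerset.filter (fun T => ¬ Disjoint T (boxE (m / 2))),
        sp p S (boxE m) (fC I J) T * x ^ T.card := by
      apply Finset.sum_le_sum_of_subset_of_nonneg
      · intro T hT
        rw [Finset.mem_filter] at hT ⊢
        refine ⟨hT.1, fun hd => hT.2 ?_⟩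
        exact Finset.disjoint_of_subset_right (boxE_mono (by omega)) hd
      · intro T _ _
        exact mul_nonneg (d3_sp_nonneg hD.ok _ _ _ _) (pow_nonneg hx0 _)
    nlinarith

open D4w in
/-- One step of the recursion. -/
theorem step_lam {lam : ℝ} (hns : S_NS lam) : ∃ (L M : ℕ) (C c : ℝ), 2 ≤ L ∧ 512 ≤ M ∧ 0 < C ∧ 0 < c ∧ ∀ m : ℕ, M ≤ m →
    ∀ x : ℝ, 0 ≤ x → x ≤ 1 → ∀ j : ℕ, 4 * L * m ≤ j → j ≤ 4 * L * (m + 1) →
      gsq x j ≤ C + 3 / 5 * gsq x (m / 8) ∧
      (x ≤ 1 - (m:ℝ) ^ (-lam) → gsq x j ≤ C * (m:ℝ) ^ (-c) + 3 / 5 * gsq x (m / 8)) := by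
  obtain ⟨L, M1, M2, N, K, hL, hM1, hM2, hK, HX⟩ := two_exit
  obtain ⟨C, c, hC, hc, HP⟩ := pair_bound_lam hns
  set Q : ℝ := (2 * (2 * (N:ℝ) + 1)) ^ 2 with hQ
  have hQ0 : 0 < Q := by positivity
  have hLp : (0:ℝ) < L := by exact_mod_cast (by omega : 0 < L)
  refine ⟨L, M2, 80 * (L:ℝ) ^ 2 * K * Q * (4 + C), c, hL, by omega, by positivity, hc, ?_⟩
  intro m hm x h0 h1 j hj1 hj2
  have hm512 : 512 ≤ m := by omega
  have hM2pos : 0 < M2 := by omega
  have hM1pos : 0 < M1 := by omega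
  have hr : 1 ≤ m / M2 := (Nat.one_le_div_iff hM2pos).mpr hm
  have hrρ : 8 * (m / M2) ≤ m / M1 := by
    rw [Nat.le_div_iff_mul_le hM1pos]
    calc 8 * (m / M2) * M1 = (8 * M1) * (m / M2) := by ring
      _ ≤ M2 * (m / M2) := Nat.mul_le_mul_right _ hM2
      _ ≤ m := Nat.mul_div_le m M2
  have hρm : 64 * (m / M1) ≤ m := by
    calc 64 * (m / M1) ≤ M1 * (m / M1) := Nat.mul_le_mul_right _ hM1
      _ ≤ m := Nat.mul_div_le m M1
  -- the sums of the separated events
  set SV : ((Bool × ℤ) × (Bool × ℤ)) → ℝ → ℝ := fun p y =>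
    ∑ e ∈ boxE (m / 4), P2 (fun _ => y) (SR L m)
          (fun F => Sev L m (m / M2) (m / M1) p.1.1 (2 * (m / M2 : ℕ) * p.1.2) p.2.1
            (2 * (m / M2 : ℕ) * p.2.2) e ↑F)
          (fun F => Sev L m (m / M2) (m / M1) p.1.1 (2 * (m / M2 : ℕ) * p.1.2) p.2.1
            (2 * (m / M2 : ℕ) * p.2.2) e ↑F) with hSV
  have hSVc : ∀ p, Continuous (SV p) := by
    intro p
    rw [hSV]
    exact continuous_finsetSum _ (fun e _ => P2_cont (fun y _ => y) (fun _ => continuous_id) _ _ _)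
  set D : ℝ := ((boxE (m / 4)).card : ℝ) * (1 / (4096 * (L:ℝ) ^ 2)) with hD
  have hD0 : 0 ≤ D := by positivity
  have hpt : ∀ y ∈ Set.Icc (0:ℝ) x, (2 * ((m / 4 : ℕ) : ℝ)) ^ 2 * a42 y (4 * L * m) ≤
      K * (∑ p ∈ prs L m (m / M2) N, SV p y) + D * a42 y (m / 8) := by
    intro y hy
    have hy1 : y ≤ 1 := hy.2.trans h1
    refine (a42_sum_ge hy.1 hy1 hL (by omega)).trans ?_
    refine (Finset.sum_le_sum (fun e he => HX m hm y hy.1 hy1 e he)).trans (le_of_eq ?_)
    rw [Finset.sum_add_distrib, Finset.sum_const, nsmul_eq_mul, ← Finset.mul_sum,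
      Finset.sum_comm, hD, hSV]
    ring
  have hint : (2 * ((m / 4 : ℕ) : ℝ)) ^ 2 * (∫ y in (0:ℝ)..x, a42 y (4 * L * m)) ≤
      K * (∑ p ∈ prs L m (m / M2) N, ∫ y in (0:ℝ)..x, SV p y) +
        D * (∫ y in (0:ℝ)..x, a42 y (m / 8)) := by
    have hi1 : IntervalIntegrable (fun y => K * (∑ p ∈ prs L m (m / M2) N, SV p y))
        MeasureTheory.volume 0 x :=
      (continuous_const.mul (continuous_finsetSum _ (fun p _ => hSVc p))).intervalIntegrable _ _
    have hi2 : IntervalIntegrable (fun y => D * a42 y (m / 8)) MeasureTheory.volume 0 x :=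
      (continuous_const.mul (a42_cont _)).intervalIntegrable _ _
    have hi0 : IntervalIntegrable (fun y => (2 * ((m / 4 : ℕ) : ℝ)) ^ 2 * a42 y (4 * L * m))
        MeasureTheory.volume 0 x :=
      (continuous_const.mul (a42_cont (4 * L * m))).intervalIntegrable 0 x
    have h : (∫ y in (0:ℝ)..x, (2 * ((m / 4 : ℕ) : ℝ)) ^ 2 * a42 y (4 * L * m)) ≤
        ∫ y in (0:ℝ)..x, (K * (∑ p ∈ prs L m (m / M2) N, SV p y) + D * a42 y (m / 8)) :=
      intervalIntegral.integral_mono_on h0 hi0 (hi1.add hi2) hpt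
    rw [intervalIntegral.integral_add hi1 hi2, intervalIntegral.integral_const_mul,
      intervalIntegral.integral_const_mul, intervalIntegral.integral_const_mul,
      intervalIntegral.integral_finsetSum
        (fun p _ => (hSVc p).intervalIntegrable _ _)] at h
    exact h
  have main : ∀ H : ℝ, 0 ≤ H → (∀ p ∈ prs L m (m / M2) N, (∫ y in (0:ℝ)..x, SV p y) ≤ H) →
      gsq x j ≤ 80 * (L:ℝ) ^ 2 * K * Q * H + 3 / 5 * gsq x (m / 8) := by
    intro H hH hp
    have hsum : (∑ p ∈ prs L m (m / M2) N, ∫ y in (0:ℝ)..x, SV p y) ≤ Q * H := by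
      calc (∑ p ∈ prs L m (m / M2) N, ∫ y in (0:ℝ)..x, SV p y)
          ≤ ∑ _p ∈ prs L m (m / M2) N, H := Finset.sum_le_sum hp
        _ = ((prs L m (m / M2) N).card : ℝ) * H := by rw [Finset.sum_const, nsmul_eq_mul]
        _ ≤ Q * H := mul_le_mul_of_nonneg_right (card_prs L m (m / M2) N) hH
    set n : ℝ := ((m / 4 : ℕ) : ℝ) with hn
    set i : ℝ := ((m / 8 : ℕ) : ℝ) with hi
    have hn1 : (m:ℝ) ≤ 4 * n + 3 := by
      have : m ≤ 4 * (m / 4) + 3 := by omega
      rw [hn]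
      exact_mod_cast this
    have hn128 : 128 ≤ n := by
      have : 128 ≤ m / 4 := by omega
      rw [hn]
      exact_mod_cast this
    have hi64 : 64 ≤ i := by
      have : 64 ≤ m / 8 := by omega
      rw [hi]
      exact_mod_cast this
    have hi1 : (m:ℝ) + 1 ≤ 8 * (i + 1) := by
      have : m + 1 ≤ 8 * (m / 8 + 1) := by omega
      rw [hi]
      exact_mod_cast this
    have hmR : (512:ℝ) ≤ m := by exact_mod_cast hm512
    set X := ∫ y in (0:ℝ)..x, a42 y (4 * L * m) with hX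
    set Z := ∫ y in (0:ℝ)..x, a42 y (m / 8) with hZ
    have hX0 : 0 ≤ X := int_nonneg h0 h1 _
    have hZ0 : 0 ≤ Z := int_nonneg h0 h1 _
    have hcard : D ≤ 2 * (2 * n + 1) ^ 2 * (1 / (4096 * (L:ℝ) ^ 2)) :=
      mul_le_mul_of_nonneg_right (card_boxE2 (m / 4)) (by positivity)
    have hX1 : (2 * n) ^ 2 * X ≤ K * (Q * H) + 2 * (2 * n + 1) ^ 2 * (1 / (4096 * (L:ℝ) ^ 2)) * Z := by
      refine hint.trans ?_
      exact add_le_add (mul_le_mul_of_nonneg_left hsum hK.le) (mul_le_mul_of_nonneg_right hcard hZ0)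
    have hjR : (j:ℝ) ≤ 4 * L * (m + 1) := by exact_mod_cast hj2
    have h4L : 1 ≤ 4 * L * m := by
      have : 0 < L * m := Nat.mul_pos (by omega) (by omega)
      nlinarith
    have hG : gsq x j ≤ (4 * L * (m + 1)) ^ 2 * X := by
      unfold gsq
      refine mul_le_mul ?_ (int_anti h0 h1 h4L hj1) (int_nonneg h0 h1 j) (by positivity)
      exact pow_le_pow_left₀ (by positivity) hjR 2
    have hn2 : (0:ℝ) < (2 * n) ^ 2 := by positivity
    -- first factor
    have hf1 : ((m:ℝ) + 1) ^ 2 ≤ 5 * (2 * n) ^ 2 := by nlinarith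
    have hf2 : ((m:ℝ) + 1) ^ 2 * (2 * n + 1) ^ 2 ≤ 384 / 5 * ((2 * n) ^ 2 * i ^ 2) := by
      have g1 : (m:ℝ) + 1 ≤ 65 / 8 * i := by linarith
      have g2 : 2 * n + 1 ≤ 257 / 256 * (2 * n) := by linarith
      have g3 : ((m:ℝ) + 1) ^ 2 ≤ (65 / 8 * i) ^ 2 := pow_le_pow_left₀ (by positivity) g1 2
      have g4 : (2 * n + 1) ^ 2 ≤ (257 / 256 * (2 * n)) ^ 2 := pow_le_pow_left₀ (by positivity) g2 2
      calc ((m:ℝ) + 1) ^ 2 * (2 * n + 1) ^ 2 ≤ (65 / 8 * i) ^ 2 * (257 / 256 * (2 * n)) ^ 2 :=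
            mul_le_mul g3 g4 (by positivity) (by positivity)
        _ = (65 / 8) ^ 2 * (257 / 256) ^ 2 * ((2 * n) ^ 2 * i ^ 2) := by ring
        _ ≤ 384 / 5 * ((2 * n) ^ 2 * i ^ 2) :=
            mul_le_mul_of_nonneg_right (by norm_num) (by positivity)
    -- conclusion
    have hfin : (2 * n) ^ 2 * gsq x j ≤ (2 * n) ^ 2 *
        (80 * (L:ℝ) ^ 2 * K * Q * H + 3 / 5 * (i ^ 2 * Z)) := by
      calc (2 * n) ^ 2 * gsq x j ≤ (2 * n) ^ 2 * ((4 * L * (m + 1)) ^ 2 * X) :=
            mul_le_mul_of_nonneg_left hG hn2.le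
        _ = (4 * L * (m + 1)) ^ 2 * ((2 * n) ^ 2 * X) := by ring
        _ ≤ (4 * L * (m + 1)) ^ 2 * (K * (Q * H) +
              2 * (2 * n + 1) ^ 2 * (1 / (4096 * (L:ℝ) ^ 2)) * Z) :=
            mul_le_mul_of_nonneg_left hX1 (by positivity)
        _ = 16 * (L:ℝ) ^ 2 * K * Q * H * ((m:ℝ) + 1) ^ 2 +
              1 / 128 * (((m:ℝ) + 1) ^ 2 * (2 * n + 1) ^ 2) * Z := by
            field_simp
            ring
        _ ≤ 16 * (L:ℝ) ^ 2 * K * Q * H * (5 * (2 * n) ^ 2) +
              1 / 128 * (384 / 5 * ((2 * n) ^ 2 * i ^ 2)) * Z := by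
            apply add_le_add
            · exact mul_le_mul_of_nonneg_left hf1 (by positivity)
            · exact mul_le_mul_of_nonneg_right
                (mul_le_mul_of_nonneg_left hf2 (by norm_num)) hZ0
        _ = (2 * n) ^ 2 * (80 * (L:ℝ) ^ 2 * K * Q * H + 3 / 5 * (i ^ 2 * Z)) := by ring
    have := le_of_mul_le_mul_left hfin hn2
    exact this
  have hmem : ∀ p ∈ prs L m (m / M2) N,
      |2 * ((m / M2 : ℕ):ℤ) * p.1.2| ≤ (L * m : ℕ) + ((m / M2 : ℕ):ℤ) ∧
      |2 * ((m / M2 : ℕ):ℤ) * p.2.2| ≤ (L * m : ℕ) + ((m / M2 : ℕ):ℤ) := by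
    intro p hp
    unfold prs at hp
    rw [Finset.mem_filter] at hp
    exact hp.2
  constructor
  · refine (main 4 (by norm_num) ?_).trans ?_
    · intro p hp
      obtain ⟨p1, p2⟩ := hmem p hp
      exact (HP L m (m / M2) (m / M1) hL hr hrρ hρm p.1.1 p.2.1 p.1.2 p.2.2 p1 p2 x h0 h1).1
    · have : 0 ≤ 80 * (L:ℝ) ^ 2 * K * Q * C := by positivity
      linarith
  · intro hx
    refine (main (C * (m:ℝ) ^ (-c)) (by positivity) ?_).trans ?_
    · intro p hp
      obtain ⟨p1, p2⟩ := hmem p hp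
      exact (HP L m (m / M2) (m / M1) hL hr hrρ hρm p.1.1 p.2.1 p.1.2 p.2.2 p1 p2 x h0 h1).2 hx
    · have : 0 ≤ 80 * (L:ℝ) ^ 2 * K * Q * 4 * (m:ℝ) ^ (-c) := by positivity
      linarith

open D4w in
/-- D4 with every exponent smaller than the one of the noise sensitivity. -/
theorem a42_lam {lam lam' : ℝ} (hl' : 0 < lam') (hl : lam' < lam) (hns : S_NS lam) :
    S_A42 lam' := by
  obtain ⟨L, M, C, c, hL, hM, hC, hc, HS⟩ := step_lam hns
  have hlam0 : 0 < lam := by linarith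
  obtain ⟨τ, hτ⟩ : ∃ τ : ℝ, τ = lam' / lam := ⟨_, rfl⟩
  have hτ0 : 0 < τ := by rw [hτ]; positivity
  have hτ1 : τ < 1 := by rw [hτ, div_lt_one hlam0]; exact hl
  have hτl : τ * lam = lam' := by rw [hτ]; field_simp
  have hLp : (0:ℝ) < L := by exact_mod_cast (by omega : 0 < L)
  have hL2 : (2:ℝ) ≤ L := by exact_mod_cast hL
  have hMp : (512:ℝ) ≤ M := by exact_mod_cast hM
  -- first claim
  set J : ℝ := 4 * L * M with hJ
  have hJ1 : 1 ≤ J := by nlinarith
  set B : ℝ := 2 * J ^ 2 + 5 / 2 * C with hB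
  have hB0 : 0 < B := by positivity
  have first : ∀ x : ℝ, 0 ≤ x → x ≤ 1 → ∀ j : ℕ, 1 ≤ j → gsq x j ≤ B := by
    intro x h0 h1 j
    induction j using Nat.strong_induction_on with
    | _ j ih =>
      intro hj
      by_cases hjJ : 4 * L * M ≤ j
      · obtain ⟨s1, s2, s3, s4, s5⟩ := scale hL hM hjJ
        have h2 := (HS _ s1 x h0 h1 j s2 s3).1
        have h3 := ih _ s5 s4
        have : 0 ≤ J ^ 2 := by positivity
        linarith
      · have h2 := gsq_le h0 h1 j
        have h3 : (j:ℝ) ≤ J := by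
          have : j ≤ 4 * L * M := by omega
          rw [hJ]
          exact_mod_cast this
        have h4 : (j:ℝ) ^ 2 ≤ J ^ 2 := pow_le_pow_left₀ (by positivity) h3 2
        linarith
  -- the exponent
  have h64 : (1:ℝ) < 64 * L := by linarith
  obtain ⟨γ, hγ, hγ2⟩ : ∃ γ : ℝ, 0 < γ ∧ (64 * (L:ℝ)) ^ γ = 5 / 3 := by
    refine ⟨Real.log (5 / 3) / Real.log (64 * L), div_pos (Real.log_pos (by norm_num))
      (Real.log_pos h64), ?_⟩
    rw [Real.rpow_def_of_pos (by linarith), mul_div_cancel₀ _ (Real.log_pos h64).ne',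
      Real.exp_log (by norm_num)]
  set A : ℝ := B * J ^ γ + 5 / 2 * C with hA
  have hJγ : 1 ≤ J ^ γ := Real.one_le_rpow hJ1 hγ.le
  have hA0 : 0 < A := by positivity
  have hBA : B ≤ A := by nlinarith
  -- second claim
  have second : ∀ x : ℝ, 0 ≤ x → x ≤ 1 → ∀ T : ℝ, 1 ≤ T → x ≤ 1 - T ^ (-lam) →
      ∀ j : ℕ, 1 ≤ j → gsq x j ≤ A * (T ^ (-c) + (T / j) ^ γ) := by
    intro x h0 h1 T hT hxT j
    have hT0 : 0 < T := by linarith
    have hTc : 0 < T ^ (-c) := Real.rpow_pos_of_pos hT0 _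
    induction j using Nat.strong_induction_on with
    | _ j ih =>
      intro hj
      have hjp : (0:ℝ) < j := by exact_mod_cast hj
      -- the trivial case
      have triv : (j:ℝ) ≤ J * T → gsq x j ≤ A * (T ^ (-c) + (T / j) ^ γ) := by
        intro h
        have h2 : (1 / J) ≤ T / j := by
          rw [div_le_div_iff₀ (by linarith) hjp]
          linarith
        have h3 : (1 / J) ^ γ ≤ (T / j) ^ γ :=
          Real.rpow_le_rpow (by positivity) h2 hγ.le
        have h4 : J ^ γ * (1 / J) ^ γ = 1 := by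
          rw [← Real.mul_rpow (by linarith) (by positivity), mul_one_div_cancel (by linarith),
            Real.one_rpow]
        calc gsq x j ≤ B := first x h0 h1 j hj
          _ = B * (J ^ γ * (1 / J) ^ γ) := by rw [h4, mul_one]
          _ = (B * J ^ γ) * (1 / J) ^ γ := by ring
          _ ≤ A * (T / j) ^ γ := mul_le_mul (by linarith) h3 (by positivity) hA0.le
          _ ≤ A * (T ^ (-c) + (T / j) ^ γ) :=
              mul_le_mul_of_nonneg_left (by linarith) hA0.le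
      by_cases hjJ : 4 * L * M ≤ j
      · obtain ⟨s1, s2, s3, s4, s5⟩ := scale hL hM hjJ
        set m := j / (4 * L) with hm
        have hm512 : 512 ≤ m := by omega
        have hmR : (512:ℝ) ≤ m := by exact_mod_cast hm512
        have s3R : (j:ℝ) ≤ 4 * L * (m + 1) := by exact_mod_cast s3
        by_cases hmT : T ≤ (m:ℝ)
        · have hx : x ≤ 1 - (m:ℝ) ^ (-lam) := by
            have : (m:ℝ) ^ (-lam) ≤ T ^ (-lam) :=
              Real.rpow_le_rpow_of_nonpos hT0 hmT (by linarith)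
            linarith
          have h2 := (HS m s1 x h0 h1 j s2 s3).2 hx
          have h3 := ih _ s5 s4
          have h4 : (m:ℝ) ^ (-c) ≤ T ^ (-c) :=
            Real.rpow_le_rpow_of_nonpos hT0 hmT (by linarith)
          set i : ℝ := ((m / 8 : ℕ) : ℝ) with hi
          have hi1 : (1:ℝ) ≤ i := by rw [hi]; exact_mod_cast s4
          have hi8 : (m:ℝ) + 1 ≤ 16 * i := by
            have : m + 1 ≤ 16 * (m / 8) := by omega
            rw [hi]
            exact_mod_cast this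
          have h5 : T / i ≤ (64 * L) * (T / j) := by
            rw [← mul_div_assoc, div_le_div_iff₀ (by linarith) hjp]
            have h6 : (j:ℝ) ≤ 64 * L * i := by
              calc (j:ℝ) ≤ 4 * L * (m + 1) := s3R
                _ ≤ 4 * L * (16 * i) := mul_le_mul_of_nonneg_left hi8 (by positivity)
                _ = 64 * L * i := by ring
            calc T * j ≤ T * (64 * L * i) := mul_le_mul_of_nonneg_left h6 hT0.le
              _ = 64 * L * T * i := by ring
          have h7 : (T / i) ^ γ ≤ 5 / 3 * (T / j) ^ γ := by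
            calc (T / i) ^ γ ≤ ((64 * L) * (T / j)) ^ γ :=
                  Real.rpow_le_rpow (by positivity) h5 hγ.le
              _ = 5 / 3 * (T / j) ^ γ := by
                  rw [Real.mul_rpow (by positivity) (by positivity), hγ2]
          have h8 : C * (m:ℝ) ^ (-c) ≤ 2 / 5 * A * T ^ (-c) := by
            have : C ≤ 2 / 5 * A := by
              have : 0 ≤ B * J ^ γ := by positivity
              linarith
            exact mul_le_mul this h4 (by positivity) (by positivity)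
          have h9 : A * (T / i) ^ γ ≤ A * (5 / 3 * (T / j) ^ γ) :=
            mul_le_mul_of_nonneg_left h7 hA0.le
          calc gsq x j ≤ C * (m:ℝ) ^ (-c) + 3 / 5 * gsq x (m / 8) := h2
            _ ≤ 2 / 5 * A * T ^ (-c) + 3 / 5 * (A * (T ^ (-c) + (T / i) ^ γ)) := by linarith
            _ ≤ A * (T ^ (-c) + (T / j) ^ γ) := by linarith
        · apply triv
          push Not at hmT
          have hMT : 4 * (L:ℝ) * (m + 1) ≤ J * T := by
            calc 4 * (L:ℝ) * (m + 1) ≤ 4 * L * (2 * T) :=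
                  mul_le_mul_of_nonneg_left (by linarith) (by positivity)
              _ ≤ 4 * L * (M * T) := mul_le_mul_of_nonneg_left
                  (mul_le_mul_of_nonneg_right (by linarith) hT0.le) (by positivity)
              _ = J * T := by rw [hJ]; ring
          linarith
      · apply triv
        have h3 : (j:ℝ) ≤ J := by
          have : j ≤ 4 * L * M := by omega
          rw [hJ]
          exact_mod_cast this
        have : J ≤ J * T := le_mul_of_one_le_right (by linarith) hT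
        linarith
  -- conclusion
  refine ⟨2 * A, min (τ * c) ((1 - τ) * γ), by positivity,
    lt_min (by positivity) (mul_pos (by linarith) hγ), ?_⟩
  intro k hk x h0 h1
  have hk1 : (1:ℝ) ≤ k := by exact_mod_cast hk
  have hk0 : (0:ℝ) < k := by linarith
  constructor
  · have := first x h0 h1 k hk
    unfold gsq at this
    linarith
  · intro hx
    set T : ℝ := (k:ℝ) ^ τ with hTdef
    have hT : 1 ≤ T := Real.one_le_rpow hk1 hτ0.le
    have e1 : T ^ (-lam) = (k:ℝ) ^ (-lam') := by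
      rw [hTdef, ← Real.rpow_mul hk0.le]
      congr 1
      rw [← hτl]
      ring
    have e2 : T ^ (-c) = (k:ℝ) ^ (-(τ * c)) := by
      rw [hTdef, ← Real.rpow_mul hk0.le]
      congr 1
      ring
    have e3 : (T / k) ^ γ = (k:ℝ) ^ (-((1 - τ) * γ)) := by
      have : T / k = (k:ℝ) ^ (-(1 - τ)) := by
        rw [hTdef]
        nth_rw 2 [← Real.rpow_one (k:ℝ)]
        rw [← Real.rpow_sub hk0]
        congr 1
        ring
      rw [this, ← Real.rpow_mul hk0.le]
      congr 1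
      ring
    have h2 := second x h0 h1 T hT (by rw [e1]; exact hx) k hk
    rw [e2, e3] at h2
    set c' := min (τ * c) ((1 - τ) * γ) with hc'
    have g1 : (k:ℝ) ^ (-(τ * c)) ≤ (k:ℝ) ^ (-c') :=
      Real.rpow_le_rpow_of_exponent_le hk1 (neg_le_neg (min_le_left _ _))
    have g2 : (k:ℝ) ^ (-((1 - τ) * γ)) ≤ (k:ℝ) ^ (-c') :=
      Real.rpow_le_rpow_of_exponent_le hk1 (neg_le_neg (min_le_right _ _))
    unfold gsq at h2
    have g3 : A * ((k:ℝ) ^ (-(τ * c)) + (k:ℝ) ^ (-((1 - τ) * γ))) ≤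
        A * ((k:ℝ) ^ (-c') + (k:ℝ) ^ (-c')) :=
      mul_le_mul_of_nonneg_left (add_le_add g1 g2) hA0.le
    linarith

end Pool.Agent.Y554.DP
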