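import Pool.Agent.Y554.DP.Defs
import Pool.Agent.H389R2.NS.E2

/-! Sums over annuli of the integrated two-layer four-arm probability, every exponent smaller
than `3/4` (the proofs of `H389NS.E2x.key_real`, `H389NS.E2x.ann_sum_of` with parameters). -/

set_option autoImplicit false

namespace Pool.Agent.Y554.DP

open H974 H12S H985T H389NS Finset E2x

/-- the exponent bound -/
theorem key_real_lam {lam lam' : ℝ} (hl0 : 0 < lam') (hl : lam' < lam) (c1 c3 : ℝ) (h1 : 0 < c1)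
    (h3 : 0 < c3) : ∃ c D : ℝ, 0 < c ∧ 0 < D ∧ 2 * c ≤ 1 / 4 ∧
    ∀ (R κ d : ℕ) (g x C3 : ℝ), 64 ≤ R → κ = R / 8 → 1 ≤ d → d ≤ κ → 0 ≤ g → 0 < C3 → g ≤ C3 →
      (x ≤ 1 - (d:ℝ) ^ (-lam) → g ≤ C3 * (d:ℝ) ^ (-c3)) →
      x ≤ 1 - (R:ℝ) ^ (-lam') →
      ((d:ℝ) / κ) ^ (1 + c1) * (g / (d:ℝ) ^ 2) ≤ D * C3 * (R:ℝ) ^ (-(2 * c)) / (R * d) := by
  have hlam : 0 < lam := by linarith
  obtain ⟨r, hr⟩ : ∃ r : ℝ, r = lam' / lam := ⟨_, rfl⟩
  have hr0 : 0 < r := by rw [hr]; positivity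
  have hr1 : r < 1 := by rw [hr, div_lt_one hlam]; exact hl
  have hrl : r * lam = lam' := by rw [hr]; field_simp
  have h1r : 0 < 1 - r := by linarith
  refine ⟨min (min (c3 * r / 2) ((1 - r) * c1 / 2)) (1 / 8), 9 * 9 ^ c1, ?_, by positivity, ?_, ?_⟩
  · refine lt_min (lt_min (by positivity) (by positivity)) (by norm_num)
  · have := min_le_right (min (c3 * r / 2) ((1 - r) * c1 / 2)) (1 / 8 : ℝ)
    linarith
  intro R κ d g x C3 hR hκ hd hdκ hg hC3 hgC hgc hx
  set c := min (min (c3 * r / 2) ((1 - r) * c1 / 2)) (1 / 8 : ℝ) with hc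
  have hca : 2 * c ≤ c3 * r := by
    have := (min_le_left (min (c3 * r / 2) ((1 - r) * c1 / 2)) (1 / 8 : ℝ)).trans
      (min_le_left _ _)
    linarith
  have hcb : 2 * c ≤ (1 - r) * c1 := by
    have := (min_le_left (min (c3 * r / 2) ((1 - r) * c1 / 2)) (1 / 8 : ℝ)).trans
      (min_le_right _ _)
    linarith
  have hR1 : (1:ℝ) ≤ R := by exact_mod_cast (by omega : 1 ≤ R)
  have hR0 : (0:ℝ) < R := by linarith
  have hd1 : (1:ℝ) ≤ d := by exact_mod_cast hd
  have hd0 : (0:ℝ) < d := by linarith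
  have hκ1 : 1 ≤ κ := by omega
  have hκ0 : (0:ℝ) < κ := by exact_mod_cast hκ1
  have hdκ' : (d:ℝ) ≤ κ := by exact_mod_cast hdκ
  have hRκ : (R:ℝ) ≤ 9 * κ := by exact_mod_cast (by omega : R ≤ 9 * κ)
  have hdk : (d:ℝ) / κ ≤ 1 := by rw [div_le_one hκ0]; exact hdκ'
  have hdk0 : 0 < (d:ℝ) / κ := div_pos hd0 hκ0
  -- the main claim
  have claim : ((d:ℝ) / κ) ^ c1 * g ≤ 9 ^ c1 * C3 * (R:ℝ) ^ (-(2 * c)) := by
    by_cases hA : (d:ℝ) ^ (-lam) ≤ (R:ℝ) ^ (-lam')
    · have hg2 := hgc (by linarith)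
      have e1 : (d:ℝ) ^ (-c3) ≤ (R:ℝ) ^ (-(2 * c)) := by
        have e2 : (d:ℝ) ^ (-c3) = ((d:ℝ) ^ (-lam)) ^ (c3 / lam) := by
          rw [← Real.rpow_mul hd0.le]
          congr 1
          field_simp
        have e3 : ((R:ℝ) ^ (-lam')) ^ (c3 / lam) = (R:ℝ) ^ (-(c3 * r)) := by
          rw [← Real.rpow_mul hR0.le]
          congr 1
          rw [hr]
          field_simp
        rw [e2]
        refine (Real.rpow_le_rpow (by positivity) hA (by positivity)).trans ?_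
        rw [e3]
        apply Real.rpow_le_rpow_of_exponent_le hR1
        linarith
      have e4 : ((d:ℝ) / κ) ^ c1 ≤ 1 := Real.rpow_le_one hdk0.le hdk h1.le
      have e5 : (1:ℝ) ≤ 9 ^ c1 := Real.one_le_rpow (by norm_num) h1.le
      calc ((d:ℝ) / κ) ^ c1 * g ≤ 1 * (C3 * (d:ℝ) ^ (-c3)) :=
            mul_le_mul e4 hg2 hg zero_le_one
        _ ≤ 9 ^ c1 * (C3 * (R:ℝ) ^ (-(2 * c))) :=
            mul_le_mul e5 (mul_le_mul_of_nonneg_left e1 hC3.le) (by positivity) (by positivity)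
        _ = _ := by ring
    · push Not at hA
      have e1 : (d:ℝ) ≤ (R:ℝ) ^ r := by
        by_contra hcon
        push Not at hcon
        have e2 : (d:ℝ) ^ (-lam) ≤ ((R:ℝ) ^ r) ^ (-lam) :=
          Real.rpow_le_rpow_of_nonpos (by positivity) hcon.le (by linarith)
        rw [← Real.rpow_mul hR0.le] at e2
        have e3 : r * (-lam) = -lam' := by rw [← hrl]; ring
        rw [e3] at e2
        linarith
      have e2 : (d:ℝ) / κ ≤ 9 * (R:ℝ) ^ (-(1 - r)) := by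
        rw [div_le_iff₀ hκ0]
        have e3 : (R:ℝ) ^ r = (R:ℝ) ^ (-(1 - r)) * R := by
          have : (R:ℝ) ^ (-(1 - r)) * R = (R:ℝ) ^ (-(1 - r)) * (R:ℝ) ^ (1:ℝ) := by
            rw [Real.rpow_one]
          rw [this, ← Real.rpow_add hR0]
          congr 1
          ring
        rw [e3] at e1
        have e4 : 0 < (R:ℝ) ^ (-(1 - r)) := by positivity
        nlinarith
      have e3 : ((d:ℝ) / κ) ^ c1 ≤ 9 ^ c1 * (R:ℝ) ^ (-(2 * c)) := by
        refine (Real.rpow_le_rpow hdk0.le e2 h1.le).trans ?_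
        rw [Real.mul_rpow (by norm_num) (by positivity), ← Real.rpow_mul hR0.le]
        apply mul_le_mul_of_nonneg_left _ (by positivity)
        apply Real.rpow_le_rpow_of_exponent_le hR1
        linarith
      calc ((d:ℝ) / κ) ^ c1 * g ≤ (9 ^ c1 * (R:ℝ) ^ (-(2 * c))) * C3 :=
            mul_le_mul e3 hgC hg (by positivity)
        _ = _ := by ring
  have e1 : ((d:ℝ) / κ) ^ (1 + c1) * (g / (d:ℝ) ^ 2) =
      (((d:ℝ) / κ) ^ c1 * g) * (1 / (κ * d)) := by
    rw [Real.rpow_add hdk0, Real.rpow_one]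
    field_simp
  rw [e1]
  have e2 : 1 / ((κ:ℝ) * d) ≤ 9 / (R * d) := by
    rw [div_le_div_iff₀ (by positivity) (by positivity)]
    nlinarith
  calc (((d:ℝ) / κ) ^ c1 * g) * (1 / (κ * d)) ≤
      (9 ^ c1 * C3 * (R:ℝ) ^ (-(2 * c))) * (9 / (R * d)) :=
        mul_le_mul claim e2 (by positivity) (by positivity)
    _ = _ := by ring

/-- the sum over an annulus, from the three inputs -/
theorem ann_sum_lam {lam lam' : ℝ} (hl0 : 0 < lam') (hl : lam' < lam) (ha42 : S_A42 lam) :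
    S_AS lam' := by
  obtain ⟨C1, c1, hC1, hc1, H1⟩ := P2_A4_outer
  obtain ⟨C2, hC2, H2⟩ := P2_A4_triv
  obtain ⟨C3, c3, hC3, hc3, H3⟩ := ha42
  obtain ⟨c, D, hc, hD, hc8, HR⟩ := key_real_lam hl0 hl c1 c3 hc1 hc3
  set K0 : ℝ := 9 * C1 * D * C3 + 4 * 9 ^ (5/4 : ℝ) * C2 with hK0
  have hK00 : 0 < K0 := by positivity
  refine ⟨K0 * 65 * (3 + 3 / c), c, by positivity, hc, ?_⟩
  intro a' R N' S hR ha hN hS x hx0 hx
  have hR1 : (1:ℝ) ≤ R := by exact_mod_cast (by omega : 1 ≤ R)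
  have hR0 : (0:ℝ) < R := by linarith
  have hx1 : x ≤ 1 := by
    have : 0 < (R:ℝ) ^ (-lam') := by positivity
    linarith
  obtain ⟨κ, hκ⟩ : ∃ κ, κ = R / 8 := ⟨_, rfl⟩
  have hκ1 : 1 ≤ κ := by omega
  have hprof : ∀ y : ℝ, 0 ≤ y → y ≤ 1 → ∀ e' ∈ S,
      0 ≤ (fun e' : Edg => if e' ∈ An a' N' then y else 1) e' ∧
      (fun e' : Edg => if e' ∈ An a' N' then y else 1) e' ≤ 1 := by
    intro y h0 h1 e' _
    simp only
    split_ifs
    · exact ⟨h0, h1⟩
    · exact ⟨zero_le_one, le_rfl⟩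
  have hcont : ∀ e : Edg, Continuous fun y : ℝ =>
      P2 (fun e' => if e' ∈ An a' N' then y else 1) S
          (fun F => A4e κ e ↑F ∨ A4d κ e F) (fun F => A4e κ e ↑F ∨ A4d κ e F) := by
    intro e
    apply P2_cont (fun (y : ℝ) (e' : Edg) => if e' ∈ An a' N' then y else 1)
    intro e'
    by_cases h : e' ∈ An a' N'
    · simp only [if_pos h]
      exact continuous_id
    · simp only [if_neg h]
      exact continuous_const
  rw [← hκ]
  have main : ∀ e ∈ An R (2 * R), (∫ y in (0:ℝ)..x,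
        P2 (fun e' => if e' ∈ An a' N' then y else 1) S
          (fun F => A4e κ e ↑F ∨ A4d κ e F)
          (fun F => A4e κ e ↑F ∨ A4d κ e F)) ≤
      (K0 * (R:ℝ) ^ (-(2 * c)) / R) / ((tt R e : ℝ) + 1) := by
    intro e he
    have hSe : ebx e (κ + 2) ⊆ S := by
      rw [hκ]
      exact hS e he
    have ht0 : (0:ℝ) < (tt R e : ℝ) + 1 := by positivity
    by_cases ht : tt R e ≤ 3
    · have h1 : (∫ y in (0:ℝ)..x,
        P2 (fun e' => if e' ∈ An a' N' then y else 1) S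
          (fun F => A4e κ e ↑F ∨ A4d κ e F)
          (fun F => A4e κ e ↑F ∨ A4d κ e F)) ≤ ∫ _ in (0:ℝ)..x, C2 * (κ:ℝ) ^ (-(5/4) : ℝ) := by
        apply intervalIntegral.integral_mono_on hx0 ((hcont e).intervalIntegrable _ _)
          (continuous_const.intervalIntegrable _ _)
        intro y hy
        exact H2 _ S e κ (hprof y hy.1 (hy.2.trans hx1)) hSe hκ1
      have h2 : (∫ _ in (0:ℝ)..x, C2 * (κ:ℝ) ^ (-(5/4) : ℝ)) ≤ C2 * (κ:ℝ) ^ (-(5/4) : ℝ) := by
        rw [intervalIntegral.integral_const, sub_zero, smul_eq_mul]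
        have : 0 ≤ C2 * (κ:ℝ) ^ (-(5/4) : ℝ) := by positivity
        exact mul_le_of_le_one_left this hx1
      have h3 := triv_real C2 c hC2 hc8 R κ (tt R e) hR hκ ht
      refine (h1.trans h2).trans (h3.trans ?_)
      apply div_le_div_of_nonneg_right _ ht0.le
      apply div_le_div_of_nonneg_right _ hR0.le
      apply mul_le_mul_of_nonneg_right _ (by positivity)
      rw [hK0]
      have : 0 < 9 * C1 * D * C3 := by positivity
      linarith
    · obtain ⟨d, hd⟩ : ∃ d, d = min (tt R e - 3) κ := ⟨_, rfl⟩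
      have hd1 : 1 ≤ d := by omega
      have hdκ : d ≤ κ := by omega
      have hg := good (d := d) ha hN he (by omega)
      have hc2 : Continuous (fun y : ℝ => (C1 * ((d:ℝ) / κ) ^ (1 + c1)) * a42 y d) :=
        continuous_const.mul (a42_cont d)
      have h1 : (∫ y in (0:ℝ)..x,
        P2 (fun e' => if e' ∈ An a' N' then y else 1) S
          (fun F => A4e κ e ↑F ∨ A4d κ e F)
          (fun F => A4e κ e ↑F ∨ A4d κ e F)) ≤
          ∫ y in (0:ℝ)..x, (C1 * ((d:ℝ) / κ) ^ (1 + c1)) * a42 y d := by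
        apply intervalIntegral.integral_mono_on hx0 ((hcont e).intervalIntegrable _ _)
          (hc2.intervalIntegrable _ _)
        intro y hy
        have h2 := H1 (fun e' => if e' ∈ An a' N' then y else 1) S e d κ y
          (hprof y hy.1 (hy.2.trans hx1)) hy.1 (hy.2.trans hx1) hSe hd1 hdκ
          (fun e' he' => by simp only [if_pos (hg e' he')])
        refine h2.trans (le_of_eq ?_)
        ring
      rw [intervalIntegral.integral_const_mul] at h1
      have hI0 : 0 ≤ ∫ y in (0:ℝ)..x, a42 y d :=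
        intervalIntegral.integral_nonneg hx0 (fun y hy => a42_nonneg hy.1 (hy.2.trans hx1) d)
      obtain ⟨b1, b2⟩ := H3 d hd1 x hx0 hx1
      have hd0 : (0:ℝ) < d := by exact_mod_cast hd1
      have h2 := HR R κ d ((d:ℝ) ^ 2 * (∫ y in (0:ℝ)..x, a42 y d)) x C3 hR hκ hd1 hdκ
        (by positivity) hC3 b1 b2 hx
      have e1 : (d:ℝ) ^ 2 * (∫ y in (0:ℝ)..x, a42 y d) / (d:ℝ) ^ 2 =
          ∫ y in (0:ℝ)..x, a42 y d := by
        field_simp
      rw [e1] at h2
      have h3 : (1:ℝ) / d ≤ 9 / ((tt R e : ℝ) + 1) := by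
        rw [div_le_div_iff₀ hd0 ht0, one_mul]
        have := mm_bounds he
        have h4 : tt R e + 1 ≤ 9 * d := by
          unfold tt at hd ht ⊢
          omega
        exact_mod_cast h4
      calc _ ≤ C1 * ((d:ℝ) / κ) ^ (1 + c1) * ∫ y in (0:ℝ)..x, a42 y d := h1
        _ = C1 * (((d:ℝ) / κ) ^ (1 + c1) * ∫ y in (0:ℝ)..x, a42 y d) := by ring
        _ ≤ C1 * (D * C3 * (R:ℝ) ^ (-(2 * c)) / (R * d)) := mul_le_mul_of_nonneg_left h2 hC1.le
        _ = (C1 * D * C3 * (R:ℝ) ^ (-(2 * c)) / R) * (1 / d) := by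
            field_simp
        _ ≤ (C1 * D * C3 * (R:ℝ) ^ (-(2 * c)) / R) * (9 / ((tt R e : ℝ) + 1)) :=
            mul_le_mul_of_nonneg_left h3 (by positivity)
        _ = (9 * C1 * D * C3 * (R:ℝ) ^ (-(2 * c)) / R) / ((tt R e : ℝ) + 1) := by
            field_simp
        _ ≤ _ := by
            apply div_le_div_of_nonneg_right _ ht0.le
            apply div_le_div_of_nonneg_right _ hR0.le
            apply mul_le_mul_of_nonneg_right _ (by positivity)
            rw [hK0]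
            have : 0 < 4 * 9 ^ (5/4 : ℝ) * C2 := by positivity
            linarith
  have hsum := sum_depth hR _ (K0 * (R:ℝ) ^ (-(2 * c)) / R) c (by positivity) hc main
  refine hsum.trans (le_of_eq ?_)
  have e5 : (R:ℝ) ^ (-c) = (R:ℝ) ^ (-(2 * c)) * (R:ℝ) ^ c := by
    rw [← Real.rpow_add hR0]
    congr 1
    ring
  rw [e5]
  field_simp

end Pool.Agent.Y554.DP
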