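import Pool.Agent.Y554.DP.Up

/-! The dimension of the exceptional times in every interval. -/

set_option autoImplicit false

namespace Pool.Agent.Y554.DP

open H974 H12S H985T H389NS Finset MeasureTheory

theorem dimU {X : ℕ → ℕ → Set Edg → Prop} {γ : ℝ} (h0 : 0 < γ) (h1 : γ < 1)
    (hU : ∀ a, UB X γ a) (hshift : S_SHIFT) {Ω : Type} [MeasurableSpace Ω] {μ : Measure Ω}
    [IsProbabilityMeasure μ] {ω : ℝ → Ω → Edg → Bool} (hdp : IsDP μ ω) :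
    ∀ᵐ w ∂μ, dimH {t : ℝ | 0 ≤ t ∧ ∃ a : ℕ, ∀ R : ℕ, X (a + 1) (a + 1 + R) (opE ω t w)} ≤
      ENNReal.ofReal (1 - γ) := by
  have hall : ∀ᵐ w ∂μ, ∀ k : ℕ, dimH (ET X (fun t => ω ((k:ℝ) + t)) w) ≤
      ENNReal.ofReal (1 - γ) := by
    rw [ae_all_iff]
    intro k
    exact dimU0 h0 h1 hU (hshift Ω μ ω hdp k (Nat.cast_nonneg k))
  filter_upwards [hall] with w hw
  have he : {t : ℝ | 0 ≤ t ∧ ∃ a : ℕ, ∀ R : ℕ, X (a + 1) (a + 1 + R) (opE ω t w)} ⊆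
      ⋃ k : ℕ, (fun x : ℝ => (k:ℝ) + x) '' (ET X (fun t => ω ((k:ℝ) + t)) w) := by
    rintro t ⟨k1, k2⟩
    refine Set.mem_iUnion.2 ⟨⌊t⌋₊, t - ⌊t⌋₊, ⟨?_, ?_, ?_⟩, by ring⟩
    · linarith [Nat.floor_le k1]
    · linarith [Nat.lt_floor_add_one t]
    · obtain ⟨a, ha⟩ := k2
      refine ⟨a, fun R => ?_⟩
      have h2 := ha R
      have e' : opE (fun s => ω (((⌊t⌋₊ : ℕ) : ℝ) + s)) (t - ⌊t⌋₊) w = opE ω t w := by
        unfold opE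
        simp
      rw [e']
      exact h2
  refine (dimH_mono he).trans ?_
  rw [dimH_iUnion]
  refine iSup_le fun k => ?_
  have h3 : dimH ((fun x : ℝ => (k:ℝ) + x) '' (ET X (fun t => ω ((k:ℝ) + t)) w)) =
      dimH (ET X (fun t => ω ((k:ℝ) + t)) w) := (isometry_add_left (k:ℝ)).dimH_image _
  rw [h3]
  exact hw k

theorem dimL_all {X : ℕ → ℕ → Set Edg → Prop} {α : ℝ} (hX : ArmFam X α) (hloc : S_DIMLOC)
    {Ω : Type} [MeasurableSpace Ω] {μ : Measure Ω}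
    [IsProbabilityMeasure μ] {ω : ℝ → Ω → Edg → Bool} (hdp : IsDP μ ω) :
    ∀ᵐ w ∂μ, ∀ s t : ℝ, 0 ≤ s → s < t → ENNReal.ofReal (1 - 4 / 3 * α) ≤
      dimH {u : ℝ | s ≤ u ∧ u ≤ t ∧ ∃ a : ℕ, ∀ R : ℕ, X (a + 1) (a + 1 + R) (opE ω u w)} := by
  have hall : ∀ᵐ w ∂μ, ∀ (n : ℕ) (i : ℕ), ENNReal.ofReal (1 - 4 / 3 * α) ≤
      dimH (EI X ω ((i:ℝ) / (n + 1)) (1 / (n + 1)) w) := by
    rw [ae_all_iff]
    intro n
    rw [ae_all_iff]
    intro i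
    refine hloc X α hX Ω μ ω hdp _ _ (by positivity) (by positivity) ?_
    rw [div_le_one (by positivity)]
    have : (0:ℝ) ≤ n := Nat.cast_nonneg n
    linarith
  filter_upwards [hall] with w hw
  intro s t hs hst
  obtain ⟨n, hn⟩ := exists_nat_gt (2 / (t - s))
  have hts : 0 < t - s := by linarith
  have hn0 : (0:ℝ) < n + 1 := by positivity
  rw [div_lt_iff₀ hts] at hn
  refine (hw n ⌈s * (n + 1)⌉₊).trans (dimH_mono ?_)
  rintro u ⟨k1, k2, k3⟩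
  have h1 : s * (n + 1) ≤ (⌈s * (n + 1)⌉₊ : ℝ) := Nat.le_ceil _
  have h2 : (⌈s * (n + 1)⌉₊ : ℝ) < s * (n + 1) + 1 := Nat.ceil_lt_add_one (by positivity)
  refine ⟨?_, ?_, k3⟩
  · refine le_trans ?_ k1
    rw [le_div_iff₀ hn0]
    exact h1
  · refine k2.trans ?_
    rw [← add_div, div_le_iff₀ hn0]
    nlinarith

end Pool.Agent.Y554.DP
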