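import Pool.Agent.Y554.DP.Defs
import Pool.Agent.H389R2.NS.Fin

/-! Limits of dyadic times, no arms at the times of the jumps, zero-one law (the proofs of
`H389NS.dp_compact`, `dp_nojump`, `dp_zero_one` for a general family). -/

set_option autoImplicit false

namespace Pool.Agent.Y554.DP

open H974 H12S H985T H389NS Finset MeasureTheory

theorem fam_congr {X : ℕ → ℕ → Set Edg → Prop} {α : ℝ} (hX : ArmFam X α) {a N : ℕ}
    {F G : Set Edg} (hFG : ∀ e ∈ An a N, e ∈ F ↔ e ∈ G) (h : X a N F) : X a N G := by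
  refine (hX.congr ?_).1 h
  ext e
  simp only [Set.mem_inter_iff, Finset.mem_coe]
  constructor
  · rintro ⟨h1, h2⟩
    exact ⟨(hFG e h2).mp h1, h2⟩
  · rintro ⟨h1, h2⟩
    exact ⟨(hFG e h2).mpr h1, h2⟩

theorem cmp : S_CMP := by
  intro X α hX Ω ω w hc a hj t ht
  have h0 : ∀ R : ℕ, ∃ s : ℝ, s ∈ Set.Icc (0:ℝ) 1 ∧ |s - t| < 1 / ((R:ℝ) + 1) ∧
      X (a + 1) (a + 1 + R) (opE ω s w) := by
    intro R
    obtain ⟨s, ⟨n, i, hi, hs, hX'⟩, hd⟩ :=
      Metric.mem_closure_iff.1 (ht R) (1 / ((R:ℝ) + 1)) (by positivity)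
    refine ⟨s, ?_, ?_, hX'⟩
    · rw [hs]
      refine ⟨by positivity, ?_⟩
      rw [div_le_one (by positivity)]
      exact_mod_cast hi.le
    · rw [Real.dist_eq, abs_sub_comm] at hd
      exact hd
  choose T hT hTt hA using h0
  have hlim : Filter.Tendsto T Filter.atTop (nhds t) := by
    rw [tendsto_iff_dist_tendsto_zero]
    refine squeeze_zero (fun _ => dist_nonneg) (fun R => ?_)
      (tendsto_one_div_add_atTop_nhds_zero_nat (𝕜 := ℝ))
    rw [Real.dist_eq]
    exact (hTt R).le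
  have htI : t ∈ Set.Icc (0:ℝ) 1 := isClosed_Icc.mem_of_tendsto hlim (Filter.Eventually.of_forall hT)
  have hclose : ∀ ε : ℝ, 0 < ε → ∀ᶠ k in Filter.atTop, t - ε < T k ∧ T k < t + ε := by
    intro ε hε
    exact hlim.eventually (Ioo_mem_nhds (by linarith) (by linarith))
  refine ⟨htI.1, htI.2, ?_⟩
  by_cases hcase : ∃ᶠ k in Filter.atTop, t ≤ T k
  · intro R0
    obtain ⟨ε, hε, hE⟩ := common_eps408 (An (a + 1) (a + 1 + R0))
      (fun e ε => ∀ s : ℝ, t ≤ s → s < t + ε → ω s w e = ω t w e)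
      (fun e => (hc e).1 t htI.1)
      (fun e ε ε' h _ h2 s hs1 hs2 => h s hs1 (by linarith))
    obtain ⟨k, hk1, hk2, hk3⟩ :=
      (hcase.and_eventually ((hclose ε hε).and (Filter.eventually_ge_atTop R0))).exists
    have h1 : X (a + 1) (a + 1 + R0) (opE ω (T k) w) :=
      hX.outer (by omega) (by omega) (hA k)
    refine fam_congr hX (fun e he => ?_) h1
    have h2 := hE e he (T k) hk1 hk2.2
    show ω (T k) w e = true ↔ ω t w e = true
    rw [h2]
  · rw [Filter.not_frequently] at hcase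
    have ht0 : 0 < t := by
      obtain ⟨k, hk⟩ := hcase.exists
      exact lt_of_le_of_lt (hT k).1 (not_le.mp hk)
    have hL : ∀ R0 : ℕ, X (a + 1) (a + 1 + R0) (opL ω t w) := by
      intro R0
      obtain ⟨ε, hε, hE⟩ := common_eps408 (An (a + 1) (a + 1 + R0))
        (fun e ε => ∀ s s' : ℝ, t - ε < s → s < t → t - ε < s' → s' < t → ω s w e = ω s' w e)
        (fun e => by
          obtain ⟨ε, h1, _, h2⟩ := (hc e).2 t ht0
          exact ⟨ε, h1, h2⟩)
        (fun e ε ε' h _ h2 s s' hs1 hs2 hs3 hs4 => h s s' (by linarith) hs2 (by linarith) hs4)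
      obtain ⟨k, hk1, hk2, hk3⟩ :=
        (hcase.and ((hclose ε hε).and (Filter.eventually_ge_atTop R0))).exists
      have h1 : X (a + 1) (a + 1 + R0) (opE ω (T k) w) :=
        hX.outer (by omega) (by omega) (hA k)
      refine fam_congr hX (fun e he => ?_) h1
      have hlt : T k < t := not_le.mp hk1
      show ω (T k) w e = true ↔ ∃ ε > 0, ∀ s : ℝ, t - ε < s → s < t → ω s w e = true
      constructor
      · intro h
        refine ⟨ε, hε, fun s hs1 hs2 => ?_⟩
        rw [hE e he s (T k) hs1 hs2 hk2.1 hlt]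
        exact h
      · rintro ⟨ε', hε', h⟩
        set s := t - min ε ε' / 2 with hs
        have hm : 0 < min ε ε' := lt_min hε hε'
        have hm1 : min ε ε' ≤ ε := min_le_left _ _
        have hm2 : min ε ε' ≤ ε' := min_le_right _ _
        rw [hE e he (T k) s hk2.1 hlt (by linarith) (by linarith)]
        exact h s (by linarith) (by linarith)
    by_cases hall : ∀ e : Edg, (e ∈ opL ω t w ↔ e ∈ opE ω t w)
    · intro R
      exact fam_congr hX (fun e _ => hall e) (hL R)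
    · push Not at hall
      obtain ⟨e, he⟩ := hall
      have he' : ¬ (e ∈ opL ω t w ↔ e ∈ opE ω t w) := by
        intro h
        rcases he with ⟨h1, h2⟩ | ⟨h1, h2⟩
        · exact h2 (h.mp h1)
        · exact h1 (h.mpr h2)
      obtain ⟨R, hR⟩ := hj e t ht0 htI.2 he'
      exact absurd (hL R) hR

theorem nj : S_NJ := by
  intro X α hX Ω _ μ _ ω h e a ha
  obtain ⟨C, hC0, hC⟩ := hX.upper
  have hok : H974.Ok (hp : Edg → ℝ) := fun _ => by unfold hp; norm_num
  have hnn : ∀ R, 0 ≤ Pr hp (An a (a + R)) (fun F => X a (a + R) ↑F) :=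
    fun R => H974.Pr_nonneg hok _ _
  have hlim : Filter.Tendsto (fun R => Pr hp (An a (a + R)) (fun F => X a (a + R) ↑F))
      Filter.atTop (nhds 0) := by
    refine squeeze_zero hnn (g := fun R : ℕ => C * ((a:ℝ) / ((a + R : ℕ) : ℝ)) ^ α)
      (fun R => hC a (a + R) ha (Nat.le_add_right _ _)) ?_
    have h1 : Filter.Tendsto (fun R : ℕ => ((a + R : ℕ) : ℝ)) Filter.atTop Filter.atTop :=
      tendsto_natCast_atTop_atTop.comp (Filter.tendsto_atTop_mono (fun R => Nat.le_add_left R a)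
        Filter.tendsto_id)
    have h2 : Filter.Tendsto (fun R : ℕ => (a:ℝ) / ((a + R : ℕ) : ℝ)) Filter.atTop (nhds 0) :=
      Filter.Tendsto.div_atTop tendsto_const_nhds h1
    have h3 := h2.rpow_const (p := α) (Or.inr hX.pos.le)
    rw [Real.zero_rpow hX.pos.ne'] at h3
    simpa using h3.const_mul C
  exact f3_core h e (fun R => An a (a + R)) (fun R => X a (a + R))
    (fun R F G hFG => hX.congr hFG)
    (fun s t hs hst T A B => dp_two h hs hst T A B) hnn hlim

/-- The event at a nonnegative time depends on the edges in the annulus. -/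
theorem zo_meas1 {Ω : Type*} [MeasurableSpace Ω] {X : ℕ → ℕ → Set Edg → Prop} {α : ℝ}
    (hX : ArmFam X α) {ω : ℝ → Ω → Edg → Bool} (a R : ℕ)
    (h : ∀ e ∈ An a R, ∀ t : ℝ, 0 ≤ t → Measurable (fun w => ω t w e)) {t : ℝ} (ht : 0 ≤ t) :
    MeasurableSet {w : Ω | X a R (opE ω t w)} := by
  classical
  have e1 : {w : Ω | X a R (opE ω t w)} =
      ⋃ G ∈ (An a R).powerset.filter (fun G : Finset Edg => X a R (↑G : Set Edg)),
        ⋂ e ∈ An a R, {w : Ω | ω t w e = decide (e ∈ G)} := by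
    ext w
    simp only [Set.mem_iUnion, Set.mem_iInter, Set.mem_ofPred_eq, exists_prop,
      Finset.mem_filter, Finset.mem_powerset]
    constructor
    · intro hw
      refine ⟨(An a R).filter (fun e => ω t w e = true), ⟨Finset.filter_subset _ _, ?_⟩, ?_⟩
      · refine (hX.congr ?_).1 hw
        ext e
        simp only [opE, Set.mem_inter_iff, Set.mem_ofPred_eq, Finset.mem_coe,
          Finset.mem_filter]
        tauto
      · intro e he
        by_cases h1 : ω t w e = true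
        · rw [h1]
          simp [he, h1]
        · simp [he, h1]
    · rintro ⟨G, ⟨hG1, hG2⟩, hG3⟩
      refine (hX.congr ?_).2 hG2
      ext e
      simp only [opE, Set.mem_inter_iff, Set.mem_ofPred_eq, Finset.mem_coe]
      constructor
      · rintro ⟨h1, h2⟩
        refine ⟨?_, h2⟩
        have h3 := hG3 e h2
        rw [h1] at h3
        exact of_decide_eq_true h3.symm
      · rintro ⟨h1, h2⟩
        refine ⟨?_, h2⟩
        rw [hG3 e h2]
        exact decide_eq_true h1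
  rw [e1]
  refine Finset.measurableSet_biUnion _ fun G _ => Finset.measurableSet_biInter _ fun e he => ?_
  exact h e he t ht (measurableSet_singleton _)

/-- The goodness event depends on the edges in the annulus. -/
theorem zo_meas {Ω : Type*} [MeasurableSpace Ω] {X : ℕ → ℕ → Set Edg → Prop} {α : ℝ}
    (hX : ArmFam X α) {ω : ℝ → Ω → Edg → Bool} (a R : ℕ)
    (h : ∀ e ∈ An a R, ∀ t : ℝ, 0 ≤ t → Measurable (fun w => ω t w e)) (s δ c : ℝ) (n : ℕ) :
    MeasurableSet {w : Ω | H389R2.Dim.Good s δ c (DTn X ω n a R w)} := by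
  classical
  have e1 : {w : Ω | H389R2.Dim.Good s δ c (DTn X ω n a R w)} =
      ⋃ J ∈ (Finset.range (2 ^ n)).powerset.filter (fun J : Finset ℕ =>
          H389R2.Dim.Good s δ c {t : ℝ | ∃ i ∈ J, t = (i:ℝ) / 2 ^ n}),
        ⋂ i ∈ Finset.range (2 ^ n), {w : Ω | X a R (opE ω ((i:ℝ) / 2 ^ n) w) ↔ i ∈ J} := by
    ext w
    simp only [Set.mem_iUnion, Set.mem_iInter, Set.mem_ofPred_eq, exists_prop,
      Finset.mem_filter, Finset.mem_powerset, Finset.mem_range]
    constructor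
    · intro hw
      refine ⟨(Finset.range (2 ^ n)).filter (fun i => X a R (opE ω ((i:ℝ) / 2 ^ n) w)),
        ⟨Finset.filter_subset _ _, ?_⟩, ?_⟩
      · refine hw.mono ?_
        rintro t ⟨i, hi, ht, hX'⟩
        refine ⟨i, ?_, ht⟩
        rw [Finset.mem_filter, Finset.mem_range]
        exact ⟨hi, by rw [← ht]; exact hX'⟩
      · intro i hi
        rw [Finset.mem_filter, Finset.mem_range]
        exact ⟨fun h => ⟨hi, h⟩, fun h => h.2⟩
    · rintro ⟨J, ⟨hJ1, hJ2⟩, hJ3⟩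
      refine hJ2.mono ?_
      rintro t ⟨i, hi, ht⟩
      have hi' : i < 2 ^ n := Finset.mem_range.1 (hJ1 hi)
      exact ⟨i, hi', ht, by rw [ht]; exact (hJ3 i hi').2 hi⟩
  rw [e1]
  refine Finset.measurableSet_biUnion _ fun J _ => Finset.measurableSet_biInter _ fun i _ => ?_
  have hm := zo_meas1 hX a R h (t := (i:ℝ) / 2 ^ n) (by positivity)
  by_cases hi : i ∈ J
  · have e2 : {w : Ω | X a R (opE ω ((i:ℝ) / 2 ^ n) w) ↔ i ∈ J} =
        {w : Ω | X a R (opE ω ((i:ℝ) / 2 ^ n) w)} := by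
      ext w
      simp [hi]
    rw [e2]
    exact hm
  · have e2 : {w : Ω | X a R (opE ω ((i:ℝ) / 2 ^ n) w) ↔ i ∈ J} =
        {w : Ω | X a R (opE ω ((i:ℝ) / 2 ^ n) w)}ᶜ := by
      ext w
      simp [hi]
    rw [e2]
    exact hm.compl

/-- The union of the goodness events. -/
def GG {Ω : Type*} (X : ℕ → ℕ → Set Edg → Prop) (ω : ℝ → Ω → Edg → Bool) (s c : ℝ) (a R m : ℕ) :
    Set Ω :=
  ⋃ n : ℕ, {w | H389R2.Dim.Good s ((1 / 2 : ℝ) ^ m) c (DTn X ω n a R w)}

theorem GG_inner {Ω : Type*} {X : ℕ → ℕ → Set Edg → Prop} {α : ℝ} (hX : ArmFam X α)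
    {ω : ℝ → Ω → Edg → Bool} {s c : ℝ} {a b R m : ℕ} (hab : a ≤ b) (hR : b ≤ R) :
    GG X ω s c a R m ⊆ GG X ω s c b R m := by
  intro w hw
  unfold GG at hw ⊢
  rw [Set.mem_iUnion] at hw ⊢
  obtain ⟨n, hn⟩ := hw
  refine ⟨n, hn.mono ?_⟩
  rintro t ⟨i, hi, ht, hX'⟩
  exact ⟨i, hi, ht, hX.inner hab hR hX'⟩

theorem GG_outer {Ω : Type*} {X : ℕ → ℕ → Set Edg → Prop} {α : ℝ} (hX : ArmFam X α)
    {ω : ℝ → Ω → Edg → Bool} {s c : ℝ} {a R R' m m' : ℕ} (ha : a ≤ R) (hR : R ≤ R')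
    (hm : m ≤ m') : GG X ω s c a R' m' ⊆ GG X ω s c a R m := by
  intro w hw
  unfold GG at hw ⊢
  rw [Set.mem_iUnion] at hw ⊢
  obtain ⟨n, hn⟩ := hw
  refine ⟨n, (hn.mono ?_).anti (pow_le_pow_of_le_one (by norm_num) (by norm_num) hm)⟩
  rintro t ⟨i, hi, ht, hX'⟩
  exact ⟨i, hi, ht, hX.outer ha hR hX'⟩

theorem zo : S_ZO := by
  classical
  intro X α hX s' c' Ω _ μ _ ω h
  change MeasurableSet (⋃ a : ℕ, ⋂ R : ℕ, ⋂ m : ℕ, GG X ω s' c' (a + 1) (a + 1 + R) m) ∧
    (μ (⋃ a : ℕ, ⋂ R : ℕ, ⋂ m : ℕ, GG X ω s' c' (a + 1) (a + 1 + R) m) = 0 ∨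
    μ (⋃ a : ℕ, ⋂ R : ℕ, ⋂ m : ℕ, GG X ω s' c' (a + 1) (a + 1 + R) m) = 1)
  refine ⟨?_, ?_⟩
  · refine MeasurableSet.iUnion fun a => MeasurableSet.iInter fun R => MeasurableSet.iInter
      fun m => MeasurableSet.iUnion fun n => ?_
    exact zo_meas hX _ _ (fun e _ t _ => h.meas t e) _ _ _ _
  set s : Edg → MeasurableSpace Ω := fun e =>
    MeasurableSpace.comap (fun (w : Ω) (t : {t : ℝ // 0 ≤ t}) => ω t w e) MeasurableSpace.pi with hs
  have hle : ∀ e, s e ≤ ‹MeasurableSpace Ω› := fun e =>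
    (measurable_pi_iff.2 fun t : {t : ℝ // 0 ≤ t} => h.meas t e).comap_le
  have hind : ProbabilityTheory.iIndep s μ := dp_indep1 h
  refine ProbabilityTheory.measure_zero_or_one_of_measurableSet_limsup (s := s)
    (f := Filter.cofinite) (p := Set.Finite) (ns := fun u : Finset Edg => (↑u : Set Edg)) hle hind
    (fun t ht => ht.compl_mem_cofinite) ?_ (fun u => u.finite_toSet)
    (fun e => ⟨{e}, by simp⟩) ?_
  · intro u v
    exact ⟨u ∪ v, by simp, by simp⟩
  · rw [Filter.limsup_eq_iInf_iSup]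
    rw [MeasurableSpace.measurableSet_iInf]
    intro u
    rw [MeasurableSpace.measurableSet_iInf]
    intro hu
    have hfin : (uᶜ).Finite := by
      simpa using hu
    obtain ⟨m, hm⟩ := F2x_box hfin.toFinset
    have hE : (⋃ a : ℕ, ⋂ R : ℕ, ⋂ l : ℕ, GG X ω s' c' (a + 1) (a + 1 + R) l) =
        ⋃ a : ℕ, ⋂ R : ℕ, ⋂ l : ℕ, GG X ω s' c' (m + a + 1) (m + a + 1 + R) l := by
      apply Set.Subset.antisymm
      · intro w hw
        rw [Set.mem_iUnion] at hw ⊢
        obtain ⟨a, ha⟩ := hw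
        refine ⟨a, ?_⟩
        rw [Set.mem_iInter] at ha ⊢
        intro R
        rw [Set.mem_iInter]
        intro l
        have h1 := ha (m + R)
        rw [Set.mem_iInter] at h1
        have h2 := h1 l
        rw [show a + 1 + (m + R) = m + a + 1 + R by ring] at h2
        exact GG_inner hX (by omega) (by omega) h2
      · intro w hw
        rw [Set.mem_iUnion] at hw ⊢
        obtain ⟨a, ha⟩ := hw
        exact ⟨m + a, ha⟩
    rw [hE]
    refine @MeasurableSet.iUnion Ω ℕ (⨆ i ∈ u, s i) _ _ fun a => ?_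
    refine @MeasurableSet.iInter Ω ℕ (⨆ i ∈ u, s i) _ _ fun R => ?_
    refine @MeasurableSet.iInter Ω ℕ (⨆ i ∈ u, s i) _ _ fun l => ?_
    refine @MeasurableSet.iUnion Ω ℕ (⨆ i ∈ u, s i) _ _ fun n => ?_
    refine @zo_meas Ω (⨆ i ∈ u, s i) X α hX ω _ _ (fun e he t ht => ?_) _ _ _ _
    have heu : e ∈ u := by
      by_contra hcon
      have h1 : e ∈ hfin.toFinset := by
        rw [Set.Finite.mem_toFinset]
        exact hcon
      have h2 := hm e h1
      rw [INDI_memAn] at he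
      exact he.2 (H389NS.E4_boxE (by omega) h2)
    have h3 : s e ≤ ⨆ i ∈ u, s i := le_iSup₂ (f := fun i (_ : i ∈ u) => s i) e heu
    refine Measurable.mono ?_ h3 le_rfl
    have h4 : @Measurable Ω ({t : ℝ // 0 ≤ t} → Bool) (s e) MeasurableSpace.pi
        (fun (w : Ω) (t : {t : ℝ // 0 ≤ t}) => ω t w e) := comap_measurable _
    exact (measurable_pi_apply (⟨t, ht⟩ : {t : ℝ // 0 ≤ t})).comp h4

end Pool.Agent.Y554.DP
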