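import Pool.Agent.H389R2.NS.E2
import Pool.Agent.H389R2.NS.F0
import Pool.Agent.H389R2.Dim.Lower

/-!
Exceptional times of dynamical critical bond percolation on `ℤ²`: Hausdorff dimension.
Definitions and the statements of the parts.
-/

set_option autoImplicit false

namespace Pool.Agent.Y554.DP

open H974 H12S H985T H389NS Finset MeasureTheory

/-- An open arm through the annulus. -/
def OA (a N : ℕ) (F : Set Edg) : Prop :=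
  ∃ u u', onB a u ∧ onB N u' ∧ Reach (F ∩ ↑(An a N)) u u'

/-- A family of arm events with the exponent `α`. -/
structure ArmFam (X : ℕ → ℕ → Set Edg → Prop) (α : ℝ) : Prop where
  congr : ∀ {a N : ℕ} {F G : Set Edg}, F ∩ ↑(An a N) = G ∩ ↑(An a N) → (X a N F ↔ X a N G)
  inner : ∀ {a b N : ℕ} {F : Set Edg}, a ≤ b → b ≤ N → X a N F → X b N F
  outer : ∀ {a b N : ℕ} {F : Set Edg}, a ≤ b → b ≤ N → X a N F → X a b F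
  flip : ∀ {a N b1 b2 κ : ℕ} {e : Edg}, 1 ≤ a → a ≤ b1 → b2 ≤ N → 1 ≤ κ →
    Disjoint (ebx e (κ + 3)) (boxE b1) → ebx e (κ + 3) ⊆ boxE b2 → ∀ {F : Finset Edg},
    ¬ (X a N (↑(insert e F) : Set Edg) ↔ X a N (↑(F.erase e) : Set Edg)) →
    (A4e κ e (↑F : Set Edg) ∨ A4d κ e F) ∧ X a b1 (↑F : Set Edg) ∧ X b2 N (↑F : Set Edg)
  pos : 0 < α
  small : α < 3 / 8
  upper : ∃ C : ℝ, 0 < C ∧ ∀ a N : ℕ, 1 ≤ a → a ≤ N →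
    PQ (1 / 2) (An a N) (fun F => X a N ↑F) ≤ C * ((a:ℝ) / N) ^ α
  lower : ∃ c : ℝ, 0 < c ∧ ∀ a N : ℕ, 1 ≤ a → a ≤ N →
    c * ((a:ℝ) / N) ^ α ≤ PQ (1 / 2) (An a N) (fun F => X a N ↑F)

/-- Two-layer arm probability with correlation `x`. -/
noncomputable def qX (X : ℕ → ℕ → Set Edg → Prop) (x : ℝ) (a N : ℕ) : ℝ :=
  P2 (fun _ => x) (An a N) (fun F => X a N ↑F) (fun F => X a N ↑F)

/-- The dyadic times of `[0,1)` at which the arm event of the annulus holds. -/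
def DT {Ω : Type*} (X : ℕ → ℕ → Set Edg → Prop) (ω : ℝ → Ω → Edg → Bool) (a R : ℕ) (w : Ω) :
    Set ℝ :=
  {t | ∃ n i : ℕ, i < 2 ^ n ∧ t = (i:ℝ) / 2 ^ n ∧ X a R (opE ω t w)}

/-- Those of order `n`. -/
def DTn {Ω : Type*} (X : ℕ → ℕ → Set Edg → Prop) (ω : ℝ → Ω → Edg → Bool) (n a R : ℕ) (w : Ω) :
    Set ℝ :=
  {t | ∃ i : ℕ, i < 2 ^ n ∧ t = (i:ℝ) / 2 ^ n ∧ X a R (opE ω t w)}

/-- The times of `[0,1]` at which the arm event of all the annuli with inner radius `a + 1`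
holds, for some `a`. -/
def ET {Ω : Type*} (X : ℕ → ℕ → Set Edg → Prop) (ω : ℝ → Ω → Edg → Bool) (w : Ω) : Set ℝ :=
  {t | 0 ≤ t ∧ t ≤ 1 ∧ ∃ a : ℕ, ∀ R : ℕ, X (a + 1) (a + 1 + R) (opE ω t w)}

/-- NS: noise sensitivity with every exponent `lam < 3/4`. -/
def S_NS (lam : ℝ) : Prop := ∃ C c : ℝ, 0 < C ∧ 0 < c ∧ ∀ n : ℕ, 1 ≤ n →
    ∀ (p : Edg → ℝ) (S : Finset Edg) (I J I' J' : Set Vtx), DomN p S I J I' J' n →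
    ∀ x : ℝ, 0 ≤ x → x ≤ 1 - (n:ℝ) ^ (-lam) →
      ∑ T ∈ (boxE n).powerset.filter (fun T => ¬ Disjoint T (boxE (n / 2))),
        sp p S (boxE n) (fC I J) T * x ^ T.card ≤ C * (n:ℝ) ^ (-c)

/-- A42: the integrated two-layer four-arm probability. -/
def S_A42 (lam : ℝ) : Prop := ∃ C c : ℝ, 0 < C ∧ 0 < c ∧ ∀ k : ℕ, 1 ≤ k → ∀ x : ℝ,
    0 ≤ x → x ≤ 1 →
    (k:ℝ) ^ 2 * (∫ y in (0:ℝ)..x, a42 y k) ≤ C ∧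
    (x ≤ 1 - (k:ℝ) ^ (-lam) → (k:ℝ) ^ 2 * (∫ y in (0:ℝ)..x, a42 y k) ≤ C * (k:ℝ) ^ (-c))

/-- AS: sum over an annulus. -/
def S_AS (lam : ℝ) : Prop := ∃ C c : ℝ, 0 < C ∧ 0 < c ∧ ∀ (a' R N' : ℕ) (S : Finset Edg),
    64 ≤ R → a' ≤ R → 2 * R ≤ N' → (∀ e ∈ An R (2 * R), ebx e (R / 8 + 2) ⊆ S) →
    ∀ x : ℝ, 0 ≤ x → x ≤ 1 - (R:ℝ) ^ (-lam) →
      ∑ e ∈ An R (2 * R), (∫ y in (0:ℝ)..x,
        P2 (fun e' => if e' ∈ An a' N' then y else 1) S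
          (fun F => A4e (R / 8) e ↑F ∨ A4d (R / 8) e F)
          (fun F => A4e (R / 8) e ↑F ∨ A4d (R / 8) e F)) ≤ C * (R:ℝ) ^ (-c)

/-- QX: two-layer arm probabilities. -/
def S_QX (lam : ℝ) : Prop := ∀ (X : ℕ → ℕ → Set Edg → Prop) (α : ℝ), ArmFam X α →
    ∃ C : ℝ, 0 < C ∧ ∀ (a R : ℕ) (x : ℝ), 1 ≤ a → a ≤ R → 0 ≤ x → x < 1 →
      qX X x a R ≤ C * (1 - x) ^ (-(α / lam)) * ((a:ℝ) / R) ^ (2 * α)

/-- LOW: with positive probability the dyadic times are a good set. -/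
def S_LOW : Prop := ∀ (X : ℕ → ℕ → Set Edg → Prop) (α : ℝ), ArmFam X α →
    ∀ s : ℝ, 0 < s → s < 1 - 4 / 3 * α → ∃ c p0 : ℝ, 0 < c ∧ 0 < p0 ∧
    ∀ (Ω : Type) [MeasurableSpace Ω] (μ : Measure Ω) [IsProbabilityMeasure μ]
      (ω : ℝ → Ω → Edg → Bool), IsDP μ ω → ∀ a R : ℕ, 1 ≤ a → a ≤ R → ∀ m : ℕ, ∃ n : ℕ,
      p0 ≤ μ.real {w | H389R2.Dim.Good s ((1 / 2 : ℝ) ^ m) c (DTn X ω n a R w)}

/-- CMP: the limits of the dyadic times are exceptional times. -/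
def S_CMP : Prop := ∀ (X : ℕ → ℕ → Set Edg → Prop) (α : ℝ), ArmFam X α →
    ∀ (Ω : Type) (ω : ℝ → Ω → Edg → Bool) (w : Ω),
      (∀ x : Edg,
      (∀ t : ℝ, 0 ≤ t → ∃ ε > 0, ∀ s : ℝ, t ≤ s → s < t + ε → ω s w x = ω t w x) ∧
      (∀ t : ℝ, 0 < t → ∃ ε > 0, ε ≤ t ∧ ∀ s s' : ℝ,
        t - ε < s → s < t → t - ε < s' → s' < t → ω s w x = ω s' w x)) →
      ∀ a : ℕ, (∀ (e : Edg) (τ : ℝ), 0 < τ → τ ≤ 1 →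
        ¬ (e ∈ opL ω τ w ↔ e ∈ opE ω τ w) → ∃ R : ℕ, ¬ X (a + 1) (a + 1 + R) (opL ω τ w)) →
      ∀ t : ℝ, (∀ R : ℕ, t ∈ closure (DT X ω (a + 1) (a + 1 + R) w)) →
        0 ≤ t ∧ t ≤ 1 ∧ ∀ R : ℕ, X (a + 1) (a + 1 + R) (opE ω t w)

/-- NJ: no arms at the times of the jumps. -/
def S_NJ : Prop := ∀ (X : ℕ → ℕ → Set Edg → Prop) (α : ℝ), ArmFam X α →
    ∀ (Ω : Type) [MeasurableSpace Ω] (μ : Measure Ω) [IsProbabilityMeasure μ]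
      (ω : ℝ → Ω → Edg → Bool), IsDP μ ω → ∀ (e : Edg) (a : ℕ), 1 ≤ a →
      ∀ᵐ w ∂μ, ∀ τ : ℝ, 0 < τ → τ ≤ 1 → ¬ (e ∈ opL ω τ w ↔ e ∈ opE ω τ w) →
        ∃ R : ℕ, ¬ X a (a + R) (opL ω τ w)

/-- ZO: zero-one law. -/
def S_ZO : Prop := ∀ (X : ℕ → ℕ → Set Edg → Prop) (α : ℝ), ArmFam X α →
    ∀ (s c : ℝ) (Ω : Type) [MeasurableSpace Ω] (μ : Measure Ω) [IsProbabilityMeasure μ]
      (ω : ℝ → Ω → Edg → Bool), IsDP μ ω →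
      MeasurableSet (⋃ a : ℕ, ⋂ R : ℕ, ⋂ m : ℕ, ⋃ n : ℕ,
        {w | H389R2.Dim.Good s ((1 / 2 : ℝ) ^ m) c (DTn X ω n (a + 1) (a + 1 + R) w)}) ∧
      (μ (⋃ a : ℕ, ⋂ R : ℕ, ⋂ m : ℕ, ⋃ n : ℕ,
        {w | H389R2.Dim.Good s ((1 / 2 : ℝ) ^ m) c (DTn X ω n (a + 1) (a + 1 + R) w)}) = 0 ∨
      μ (⋃ a : ℕ, ⋂ R : ℕ, ⋂ m : ℕ, ⋃ n : ℕ,
        {w | H389R2.Dim.Good s ((1 / 2 : ℝ) ^ m) c (DTn X ω n (a + 1) (a + 1 + R) w)}) = 1)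

/-- MAIN lower bound. -/
def S_DIML : Prop := ∀ (X : ℕ → ℕ → Set Edg → Prop) (α : ℝ), ArmFam X α →
    ∀ (Ω : Type) [MeasurableSpace Ω] (μ : Measure Ω) [IsProbabilityMeasure μ]
      (ω : ℝ → Ω → Edg → Bool), IsDP μ ω →
      ∀ᵐ w ∂μ, ENNReal.ofReal (1 - 4 / 3 * α) ≤ dimH (ET X ω w)

/-- OAF: the one-arm family. -/
def S_OAF : Prop := ArmFam OA (5 / 48)

/-- AAF: the two-arm family. -/
def S_AAF : Prop := ArmFam AA (1 / 4)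

/-- UP: upper bound from a bound for the probability of an arm in a short interval. -/
def S_UPG : Prop := ∀ (X : ℕ → ℕ → Set Edg → Prop) (β : ℝ), 0 < β → β < 1 →
    ∀ (Ω : Type) [MeasurableSpace Ω] (μ : Measure Ω) [IsProbabilityMeasure μ]
      (ω : ℝ → Ω → Edg → Bool), IsDP μ ω →
      (∀ a : ℕ, ∃ C : ℝ, ∀ n i : ℕ, i < 2 ^ n → ∃ A : Set Ω, MeasurableSet A ∧
        μ.real A ≤ C * ((1 / 2 : ℝ) ^ n) ^ β ∧ ∀ᵐ w ∂μ, ∀ t : ℝ, (i:ℝ) / 2 ^ n ≤ t →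
          t ≤ ((i:ℝ) + 1) / 2 ^ n → (∀ R : ℕ, X (a + 1) (a + 1 + R) (opE ω t w)) → w ∈ A) →
      ∀ᵐ w ∂μ, dimH (ET X ω w) ≤ ENNReal.ofReal (1 - β)

end Pool.Agent.Y554.DP
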