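import Pool.Agent.Y554.DP.Asm
import Pool.Agent.Y914.DP.Inf

/-! The dimension of the exceptional times of one colour. -/

set_option autoImplicit false

namespace Pool.Agent.Y554.DP

open H974 H12S H985T H389NS Finset MeasureTheory

/-- The primal edge with the same picture as the dual edge. -/
def dl (η : Edg → Bool) : Edg → Bool := fun e =>
  if e.2.2 then !(η (e.1 + 1, e.2.1, false)) else !(η (e.1, e.2.1 + 1, true))

/-- The edge which is crossed. -/
def crs (e : Edg) : Edg := if e.2.2 then (e.1 + 1, e.2.1, false) else (e.1, e.2.1 + 1, true)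

theorem dl_eq (η : Edg → Bool) (e : Edg) : dl η e = !(η (crs e)) := by
  obtain ⟨x, y, b⟩ := e
  cases b <;> rfl

theorem crs_inj : Function.Injective crs := by
  rintro ⟨x, y, b⟩ ⟨x', y', b'⟩ h
  cases b <;> cases b' <;> simp [crs] at h ⊢ <;> omega

theorem wG_eq (η : Edg → Bool) : wG η = bG (dl η) := by
  unfold wG bG
  congr 1
  funext f g
  simp only [dl, eq_iff_iff]
  constructor
  · rintro (⟨h1, h2⟩ | ⟨h1, h2⟩)
    · left
      refine ⟨h1, ?_⟩
      rw [h1] at h2
      simpa using h2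
    · right
      refine ⟨h1, ?_⟩
      rw [h1] at h2
      simpa using h2
  · rintro (⟨h1, h2⟩ | ⟨h1, h2⟩)
    · left
      refine ⟨h1, ?_⟩
      rw [h1]
      simpa using h2
    · right
      refine ⟨h1, ?_⟩
      rw [h1]
      simpa using h2

/-- The dual process is a dynamical percolation. -/
theorem dual_dp {Ω : Type} [MeasurableSpace Ω] {μ : Measure Ω} {ω : ℝ → Ω → Edg → Bool}
    (h : IsDP μ ω) : IsDP μ (fun t w => dl (ω t w)) := by
  classical
  refine ⟨?_, ?_, ?_⟩
  · intro t e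
    have h1 : (fun w => dl (ω t w) e) = (fun b : Bool => !b) ∘ (fun w => ω t w (crs e)) := by
      funext w
      exact dl_eq _ _
    rw [h1]
    exact (measurable_of_finite _).comp (h.meas t (crs e))
  · intro F n t a h0 hm
    have h1 := h.fdd (F.image crs) n t
      (fun e i => if hx : ∃ x, crs x = e then !(a hx.choose i) else false) h0 hm
    have h2 : ∀ x : Edg, ∀ i, (if hx : ∃ y, crs y = crs x then !(a hx.choose i) else false) =
        !(a x i) := by
      intro x i
      have hx : ∃ y, crs y = crs x := ⟨x, rfl⟩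
      rw [dif_pos hx, crs_inj hx.choose_spec]
    have h3 : {w | ∀ e ∈ F, ∀ i, dl (ω (t i) w) e = a e i} =
        {w | ∀ e ∈ F.image crs, ∀ i, ω (t i) w e =
          (fun e i => if hx : ∃ x, crs x = e then !(a hx.choose i) else false) e i} := by
      ext w
      simp only [Set.mem_ofPred_eq, Finset.mem_image, forall_exists_index, and_imp,
        forall_apply_eq_imp_iff₂]
      refine forall_congr' fun e => forall_congr' fun _ => forall_congr' fun i => ?_
      rw [h2, dl_eq]
      cases ω (t i) w (crs e) <;> cases a e i <;> simp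
    rw [h3, h1, Finset.prod_image (fun x _ y _ hxy => crs_inj hxy)]
    congr 1
    refine Finset.prod_congr rfl fun e _ => ?_
    congr 1
    refine Finset.prod_congr rfl fun i _ => ?_
    rw [h2, h2]
    congr 1
    simp
  · filter_upwards [h.cadlag] with w hw
    intro e
    obtain ⟨h1, h2⟩ := hw (crs e)
    constructor
    · intro t ht
      obtain ⟨ε, hε, h3⟩ := h1 t ht
      refine ⟨ε, hε, fun s hs1 hs2 => ?_⟩
      rw [dl_eq, dl_eq, h3 s hs1 hs2]
    · intro t ht
      obtain ⟨ε, hε, hε2, h3⟩ := h2 t ht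
      refine ⟨ε, hε, hε2, fun s s' a1 a2 a3 a4 => ?_⟩
      rw [dl_eq, dl_eq, h3 s s' a1 a2 a3 a4]

/-- One colour: the dimension in all intervals. -/
theorem one_colour (hloc : S_DIMLOC) (hshift : S_SHIFT) {Ω : Type} [MeasurableSpace Ω]
    {μ : Measure Ω} [IsProbabilityMeasure μ] {ω : ℝ → Ω → Edg → Bool} (hdp : IsDP μ ω) :
    ∀ᵐ w ∂μ, ∀ s t : ℝ, 0 ≤ s → s < t →
      dimH {u : ℝ | s ≤ u ∧ u ≤ t ∧ ∃ C : (bG (ω u w)).ConnectedComponent, C.supp.Infinite} =
        ENNReal.ofReal (31 / 36) := by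
  have hU := dimU (X := OA) (γ := 5 / 36) (by norm_num) (by norm_num) UB_OA hshift hdp
  have hL := dimL_all OA_fam hloc hdp
  filter_upwards [hU, hL] with w h1 h2
  intro s t hs hst
  have he : ∀ u : ℝ, (∃ C : (bG (ω u w)).ConnectedComponent, C.supp.Infinite) ↔
      ∃ a : ℕ, ∀ R : ℕ, OA (a + 1) (a + 1 + R) (opE ω u w) := by
    intro u
    rw [(Pool.Agent.Y914.DP.gr (ω u w)).1]
    exact Pool.Agent.Y914.DP.inf1 _
  simp only [he]
  apply le_antisymm
  · refine (dimH_mono ?_).trans (h1.trans (by norm_num))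
    rintro u ⟨k1, _, k3⟩
    exact ⟨hs.trans k1, k3⟩
  · refine le_trans (by norm_num) (h2 s t hs hst)

/-- Coexistence: the lower bound in all intervals. -/
theorem two_colours_lower (hloc : S_DIMLOC) {Ω : Type} [MeasurableSpace Ω]
    {μ : Measure Ω} [IsProbabilityMeasure μ] {ω : ℝ → Ω → Edg → Bool} (hdp : IsDP μ ω) :
    ∀ᵐ w ∂μ, ∀ s t : ℝ, 0 ≤ s → s < t → ENNReal.ofReal (2 / 3) ≤
      dimH {u : ℝ | s ≤ u ∧ u ≤ t ∧
        (∃ C : (bG (ω u w)).ConnectedComponent, C.supp.Infinite) ∧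
        ∃ C : (wG (ω u w)).ConnectedComponent, C.supp.Infinite} := by
  have hL := dimL_all AA_fam hloc hdp
  filter_upwards [hL] with w h2
  intro s t hs hst
  have he : ∀ u : ℝ, ((∃ C : (bG (ω u w)).ConnectedComponent, C.supp.Infinite) ∧
      ∃ C : (wG (ω u w)).ConnectedComponent, C.supp.Infinite) ↔
      ∃ a : ℕ, ∀ R : ℕ, AA (a + 1) (a + 1 + R) (opE ω u w) := by
    intro u
    rw [(Pool.Agent.Y914.DP.gr (ω u w)).1, (Pool.Agent.Y914.DP.gr (ω u w)).2]
    exact Pool.Agent.Y914.DP.inf2 _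
  simp only [he]
  refine le_trans (by norm_num) (h2 s t hs hst)

/-- Coexistence: the dimension in all intervals, from the upper bound of the first moment. -/
theorem two_colours (hloc : S_DIMLOC) (hshift : S_SHIFT) (hU0 : ∀ a, UB AA (4 / 3 * (1 / 4)) a)
    {Ω : Type} [MeasurableSpace Ω]
    {μ : Measure Ω} [IsProbabilityMeasure μ] {ω : ℝ → Ω → Edg → Bool} (hdp : IsDP μ ω) :
    ∀ᵐ w ∂μ, ∀ s t : ℝ, 0 ≤ s → s < t →
      dimH {u : ℝ | s ≤ u ∧ u ≤ t ∧
        (∃ C : (bG (ω u w)).ConnectedComponent, C.supp.Infinite) ∧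
        ∃ C : (wG (ω u w)).ConnectedComponent, C.supp.Infinite} = ENNReal.ofReal (2 / 3) := by
  have hU := dimU (X := AA) (γ := 4 / 3 * (1 / 4)) (by norm_num) (by norm_num) hU0 hshift hdp
  have hL := dimL_all AA_fam hloc hdp
  filter_upwards [hU, hL] with w h1 h2
  intro s t hs hst
  have he : ∀ u : ℝ, ((∃ C : (bG (ω u w)).ConnectedComponent, C.supp.Infinite) ∧
      ∃ C : (wG (ω u w)).ConnectedComponent, C.supp.Infinite) ↔
      ∃ a : ℕ, ∀ R : ℕ, AA (a + 1) (a + 1 + R) (opE ω u w) := by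
    intro u
    rw [(Pool.Agent.Y914.DP.gr (ω u w)).1, (Pool.Agent.Y914.DP.gr (ω u w)).2]
    exact Pool.Agent.Y914.DP.inf2 _
  simp only [he]
  apply le_antisymm
  · refine (dimH_mono ?_).trans (h1.trans (by norm_num))
    rintro u ⟨k1, _, k3⟩
    exact ⟨hs.trans k1, k3⟩
  · refine le_trans (by norm_num) (h2 s t hs hst)

end Pool.Agent.Y554.DP
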