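import Pool.Agent.H389R2.NS.NoiseS

/-! Noise sensitivity of critical bond percolation with every exponent smaller than `3/4`
(the proof of `H389NS.noise_sens` with the exponents as parameters). -/

set_option autoImplicit false

namespace Pool.Agent.Y554.DP

open H974 H12S H389NS Finset

/-- NS for every exponent `lam < 3/4`. -/
theorem noise_sens_lam (lam : ℝ) (hlam0 : 0 < lam) (hlam1 : lam < 3 / 4) :
    ∃ C c : ℝ, 0 < C ∧ 0 < c ∧ ∀ n : ℕ, 1 ≤ n →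
    ∀ (p : Edg → ℝ) (S : Finset Edg) (I J I' J' : Set Vtx), DomN p S I J I' J' n →
    ∀ x : ℝ, 0 ≤ x → x ≤ 1 - (n:ℝ) ^ (-lam) →
      ∑ T ∈ (boxE n).powerset.filter (fun T => ¬ Disjoint T (boxE (n / 2))),
        sp p S (boxE n) (fC I J) T * x ^ T.card ≤ C * (n:ℝ) ^ (-c) := by
  classical
  obtain ⟨Cf, cf, hCf, hcf, hfew⟩ := few_cells
  obtain ⟨g, hg⟩ : ∃ g : ℝ, g = (1 - 4 * lam / 3) / 2 := ⟨_, rfl⟩
  obtain ⟨ρ, hρ⟩ : ∃ ρ : ℝ, ρ = (1 + 4 * lam / 3) / 2 := ⟨_, rfl⟩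
  have hg0 : 0 < g := by rw [hg]; linarith
  have hg1 : g < 1 / 2 := by rw [hg]; linarith
  have hρ1 : ρ = 1 - g := by rw [hρ, hg]; ring
  have hρ2 : ρ * (3 / 4) = lam + 3 / 4 * g := by rw [hρ, hg]; ring
  obtain ⟨ε, hεdef⟩ : ∃ ε : ℝ, ε = min (g / 10) (g * cf / 32) := ⟨_, rfl⟩
  have hε : 0 < ε := by rw [hεdef]; exact lt_min (by positivity) (by positivity)
  have hε1 : ε ≤ g / 10 := by rw [hεdef]; exact min_le_left _ _
  have hε2 : 32 * ε ≤ g * cf := by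
    have : ε ≤ g * cf / 32 := by rw [hεdef]; exact min_le_right _ _
    linarith
  obtain ⟨A, r0, c2, c3, hA, hr0, hc2, hc3, hc31, hqs⟩ := q_scale ε hε
  obtain ⟨Q, hQdef⟩ : ∃ Q : ℝ, Q = 1 + 1 / c2 + r0 + 400 * A := ⟨_, rfl⟩
  have hA1 : (1 : ℝ) ≤ A := by exact_mod_cast hA
  have hr01 : (1 : ℝ) ≤ r0 := by exact_mod_cast hr0
  have hc2i : 0 < 1 / c2 := by positivity
  have hQ1 : 1 ≤ Q := by rw [hQdef]; linarith
  have hQr : (r0 : ℝ) ≤ Q := by rw [hQdef]; linarith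
  have hQA : 400 * (A : ℝ) ≤ Q := by rw [hQdef]; linarith
  have hQc : 1 ≤ c2 * Q := by
    have h1 : c2 * (1 / c2) = 1 := by field_simp
    have h2 : 1 / c2 ≤ Q := by rw [hQdef]; linarith
    calc (1 : ℝ) = c2 * (1 / c2) := h1.symm
      _ ≤ c2 * Q := mul_le_mul_of_nonneg_left h2 hc2.le
  obtain ⟨n0, hn0⟩ : ∃ n0 : ℕ, n0 = ⌈Q ^ (4 / g)⌉₊ := ⟨_, rfl⟩
  have hn0Q : Q ^ (4 / g) ≤ (n0 : ℝ) := by rw [hn0]; exact Nat.le_ceil _
  have hn01 : (1 : ℝ) ≤ n0 := le_trans (Real.one_le_rpow hQ1 (by positivity)) hn0Q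
  obtain ⟨C1, hC1⟩ : ∃ C1 : ℝ, C1 = Cf * 72 ^ 3 * (1152 * (A : ℝ)) ^ cf := ⟨_, rfl⟩
  have hC1p : 0 < C1 := by rw [hC1]; positivity
  refine ⟨(n0 : ℝ) ^ ε + C1 + 720 / c3, ε, by positivity, hε, ?_⟩
  intro n hn p S I J I' J' D x hx0 hx1
  have hsp0 : ∀ T, 0 ≤ sp p S (boxE n) (fC I J) T := fun T => sp_nonneg D.ok _ _ _ _
  obtain ⟨L, hL⟩ : ∃ L : ℝ, L = (n : ℝ) := ⟨_, rfl⟩
  have hL1 : 1 ≤ L := by rw [hL]; exact_mod_cast hn
  have hL0 : 0 < L := by linarith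
  have hLε : 0 < L ^ (-ε) := Real.rpow_pos_of_pos hL0 _
  by_cases hbig : n < n0
  · -- small n
    have hx1' : x ≤ 1 := by
      have : 0 ≤ (n : ℝ) ^ (-lam) := by positivity
      linarith
    have h1 : ∑ T ∈ (boxE n).powerset.filter (fun T => ¬ Disjoint T (boxE (n / 2))),
        sp p S (boxE n) (fC I J) T * x ^ T.card ≤ 1 := by
      have e1 : ∑ T ∈ (boxE n).powerset.filter (fun T => ¬ Disjoint T (boxE (n / 2))),
          sp p S (boxE n) (fC I J) T * x ^ T.card ≤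
          ∑ T ∈ (boxE n).powerset.filter (fun T => ¬ Disjoint T (boxE (n / 2))),
          sp p S (boxE n) (fC I J) T :=
        Finset.sum_le_sum (fun T _ => mul_le_of_le_one_right (hsp0 T) (pow_le_one₀ hx0 hx1'))
      have e2 : ∑ T ∈ (boxE n).powerset.filter (fun T => ¬ Disjoint T (boxE (n / 2))),
          sp p S (boxE n) (fC I J) T ≤ ∑ T ∈ (boxE n).powerset, sp p S (boxE n) (fC I J) T :=
        Finset.sum_le_sum_of_subset_of_nonneg (Finset.filter_subset _ _) (fun T _ _ => hsp0 T)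
      exact e1.trans (e2.trans (sum_sp_le_one D.ok D.sub D.fair I J))
    have h2 : 1 ≤ (n0 : ℝ) ^ ε * L ^ (-ε) := by
      rw [Real.rpow_neg hL0.le, ← div_eq_mul_inv, le_div_iff₀ (Real.rpow_pos_of_pos hL0 _), one_mul]
      apply Real.rpow_le_rpow hL0.le _ hε.le
      rw [hL]
      exact_mod_cast hbig.le
    rw [← hL]
    have h3 : 0 ≤ (C1 + 720 / c3) * L ^ (-ε) := by positivity
    calc _ ≤ (1 : ℝ) := h1
      _ ≤ (n0 : ℝ) ^ ε * L ^ (-ε) := h2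
      _ ≤ ((n0 : ℝ) ^ ε + C1 + 720 / c3) * L ^ (-ε) := by linarith
  -- large n
  push Not at hbig
  have hLQ : Q ≤ L ^ (g / 4) := by
    have h1 : Q ^ (4 / g) ≤ L := by
      refine hn0Q.trans ?_
      rw [hL]; exact_mod_cast hbig
    have h2 := Real.rpow_le_rpow (by positivity) h1 (show (0 : ℝ) ≤ g / 4 by positivity)
    rw [← Real.rpow_mul (by linarith)] at h2
    have h3 : 4 / g * (g / 4) = 1 := by field_simp
    rw [h3, Real.rpow_one] at h2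
    exact h2
  obtain ⟨R, hR⟩ : ∃ R : ℝ, R = L ^ ρ := ⟨_, rfl⟩
  have hR1 : 1 ≤ R := by rw [hR]; exact Real.one_le_rpow hL1 (by linarith)
  obtain ⟨r, hr⟩ : ∃ r : ℕ, r = ⌈R⌉₊ := ⟨_, rfl⟩
  have hrR : R ≤ r := by rw [hr]; exact Nat.le_ceil _
  have hrR2 : (r : ℝ) ≤ 2 * R := by
    have : (r : ℝ) < R + 1 := by rw [hr]; exact Nat.ceil_lt_add_one (by linarith)
    linarith
  have hr1 : (1 : ℝ) ≤ r := hR1.trans hrR
  have hr1' : 1 ≤ r := by exact_mod_cast hr1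
  obtain ⟨E, hE⟩ : ∃ E : ℝ, E = L ^ ε := ⟨_, rfl⟩
  have hE1 : 1 ≤ E := by rw [hE]; exact Real.one_le_rpow hL1 hε.le
  obtain ⟨k, hk1, hk2⟩ := exists_nat_pow_near hE1 (show (1 : ℝ) < 5 by norm_num)
  obtain ⟨P, hP⟩ : ∃ P : ℕ, P = 5 ^ (k + 1) := ⟨_, rfl⟩
  have hPr : (P : ℝ) = 5 ^ (k + 1) := by rw [hP]; push_cast; ring
  have hPE : E ≤ P := by rw [hPr]; exact hk2.le
  have hPE2 : (P : ℝ) ≤ 5 * E := by rw [hPr, pow_succ]; linarith
  have hP1 : 1 ≤ P := by rw [hP]; exact Nat.one_le_pow _ _ (by norm_num)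
  obtain ⟨J1, hJ1⟩ : ∃ J1 : ℕ, J1 = ⌈E ^ 3⌉₊ := ⟨_, rfl⟩
  have hE3 : 1 ≤ E ^ 3 := one_le_pow₀ hE1
  have hJE : E ^ 3 ≤ J1 := by rw [hJ1]; exact Nat.le_ceil _
  have hJE2 : (J1 : ℝ) ≤ 2 * E ^ 3 := by
    have : (J1 : ℝ) < E ^ 3 + 1 := by rw [hJ1]; exact Nat.ceil_lt_add_one (by linarith)
    linarith
  have hJ11 : 1 ≤ J1 := by exact_mod_cast hE3.trans hJE
  have ha1 : 1 ≤ A * r := Nat.one_le_iff_ne_zero.mpr (Nat.mul_ne_zero (by omega) (by omega))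
  -- (i)
  have hi : r0 ≤ r := by
    have h1 : (r0 : ℝ) ≤ r := by
      refine hQr.trans (hLQ.trans (le_trans ?_ hrR))
      rw [hR]
      exact Real.rpow_le_rpow_of_exponent_le hL1 (by linarith)
    exact_mod_cast h1
  -- (ii)
  obtain ⟨K, hK⟩ : ∃ K : ℝ, K = c2 * ((A * r : ℕ) : ℝ) ^ (3/4 : ℝ) := ⟨_, rfl⟩
  have hKL : L ^ lam ≤ K := by
    have h1 : R ≤ ((A * r : ℕ) : ℝ) := by
      push_cast
      calc R ≤ r := hrR
        _ = 1 * r := (one_mul _).symm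
        _ ≤ A * r := mul_le_mul_of_nonneg_right hA1 (by linarith)
    have h2 : R ^ (3/4 : ℝ) ≤ ((A * r : ℕ) : ℝ) ^ (3/4 : ℝ) :=
      Real.rpow_le_rpow (by linarith) h1 (by norm_num)
    have h3 : R ^ (3/4 : ℝ) = L ^ lam * L ^ (3 / 4 * g) := by
      rw [hR, ← Real.rpow_mul hL0.le, ← Real.rpow_add hL0]
      congr 1
    have h4 : 0 ≤ L ^ lam := by positivity
    rw [hK]
    calc L ^ lam = L ^ lam * 1 := (mul_one _).symm
      _ ≤ L ^ lam * (c2 * Q) := mul_le_mul_of_nonneg_left hQc h4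
      _ ≤ L ^ lam * (c2 * L ^ (3 / 4 * g)) :=
        mul_le_mul_of_nonneg_left (mul_le_mul_of_nonneg_left (hLQ.trans
          (Real.rpow_le_rpow_of_exponent_le hL1 (by linarith))) hc2.le) h4
      _ = c2 * (L ^ lam * L ^ (3 / 4 * g)) := by ring
      _ = c2 * R ^ (3/4 : ℝ) := by rw [h3]
      _ ≤ c2 * ((A * r : ℕ) : ℝ) ^ (3/4 : ℝ) := mul_le_mul_of_nonneg_left h2 hc2.le
  have hK1 : 1 ≤ K := le_trans (Real.one_le_rpow hL1 hlam0.le) hKL
  have hK0 : 0 < K := by linarith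
  -- (iii)
  have hR58 : 192 * (A : ℝ) * (R * E) ≤ L := by
    have h1 : R * E ≤ L ^ (1 - g / 2) := by
      rw [hR, hE, ← Real.rpow_add hL0]
      exact Real.rpow_le_rpow_of_exponent_le hL1 (by linarith)
    have h2 : 192 * (A : ℝ) ≤ L ^ (g / 2) := by
      calc 192 * (A : ℝ) ≤ Q := by linarith
        _ ≤ L ^ (g / 4) := hLQ
        _ ≤ L ^ (g / 2) := Real.rpow_le_rpow_of_exponent_le hL1 (by linarith)
    have h3 : L ^ (g / 2) * L ^ (1 - g / 2) = L := by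
      rw [← Real.rpow_add hL0]; simp
    calc 192 * (A : ℝ) * (R * E) ≤ L ^ (g / 2) * L ^ (1 - g / 2) :=
          mul_le_mul h2 h1 (by positivity) (by positivity)
      _ = L := h3
  have hiii : 4 * (4 * (A * r) + 4 * (P * (A * r))) ≤ n := by
    have h1 : (16 : ℝ) * ((A : ℝ) * r) * (1 + P) ≤ L := by
      have h2 : (A : ℝ) * r ≤ A * (2 * R) := mul_le_mul_of_nonneg_left hrR2 (by linarith)
      have h3 : 1 + (P : ℝ) ≤ 6 * E := by linarith
      calc (16 : ℝ) * ((A : ℝ) * r) * (1 + P) ≤ 16 * (A * (2 * R)) * (6 * E) := by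
            apply mul_le_mul _ h3 (by positivity) (by positivity)
            linarith
        _ = 192 * (A : ℝ) * (R * E) := by ring
        _ ≤ L := hR58
    have h4 : ((4 * (4 * (A * r) + 4 * (P * (A * r))) : ℕ) : ℝ) ≤ (n : ℝ) := by
      rw [← hL]
      refine le_trans (le_of_eq ?_) h1
      push_cast; ring
    exact_mod_cast h4
  -- (iv)
  have hx1K : x ≤ 1 - 1 / K := by
    have h1 : 1 / K ≤ L ^ (-lam) := by
      rw [Real.rpow_neg hL0.le, ← one_div]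
      exact one_div_le_one_div_of_le (by positivity) hKL
    rw [← hL] at hx1
    linarith
  -- the estimates
  have hfc := hfew n (8 * (A * r)) ((P + 1) ^ 2 * J1) hn (by omega)
    (Nat.one_le_iff_ne_zero.mpr (Nat.mul_ne_zero (by positivity) (by omega))) p S I J I' J' D
  have hmain := ns_core (a := A * r) (P := P) (J1 := J1) ha1 hP1 hJ11 hiii D hK1 hc3
    (η := (n : ℝ) ^ (-4 : ℝ)) (by positivity)
    (by
      intro c hDB hbc W hW hWd
      have h5 : 4 * (5 ^ (k + 1) * (A * r)) = 4 * (P * (A * r)) := by rw [hP]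
      have h := hqs n r (k + 1) hn hi (by omega) (by rw [← hL, ← hE]; exact hk2.le) p S I J I' J' c
        (by rw [h5]; exact hDB) (boxE n) W D.sub D.fair (by rw [h5]; exact hbc) hW
        (by rw [h5]; exact hWd)
      rw [h5, ← hK] at h
      exact h)
    hfc hx0 hx1K
  refine hmain.trans ?_
  have hJ1r : (0 : ℝ) < J1 := by exact_mod_cast hJ11
  -- first term
  have hterm1 : Cf * ((((P + 1) ^ 2 * J1 : ℕ) : ℝ)) ^ 3 *
      ((((P + 1) ^ 2 * J1 : ℕ) : ℝ) * ((8 * (A * r) : ℕ) : ℝ) / n) ^ cf ≤ C1 * L ^ (-ε) := by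
    obtain ⟨W, hW⟩ : ∃ W : ℝ, W = (((P + 1) ^ 2 * J1 : ℕ) : ℝ) := ⟨_, rfl⟩
    rw [← hW, ← hL]
    have hW0 : 0 ≤ W := by rw [hW]; positivity
    have hWE : W ≤ 72 * E ^ 5 := by
      rw [hW]
      push_cast
      have h1 : ((P : ℝ) + 1) ^ 2 ≤ (6 * E) ^ 2 := pow_le_pow_left₀ (by positivity) (by linarith) 2
      calc ((P : ℝ) + 1) ^ 2 * J1 ≤ (6 * E) ^ 2 * (2 * E ^ 3) :=
            mul_le_mul h1 hJE2 (by positivity) (by positivity)
        _ = 72 * E ^ 5 := by ring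
    have hbR : ((8 * (A * r) : ℕ) : ℝ) ≤ 16 * A * R := by
      push_cast
      have h2 : (A : ℝ) * r ≤ A * (2 * R) := mul_le_mul_of_nonneg_left hrR2 (by linarith)
      linarith
    have h3 : W ^ 3 ≤ 72 ^ 3 * L ^ (15 * ε) := by
      have h4 : W ^ 3 ≤ (72 * E ^ 5) ^ 3 := pow_le_pow_left₀ hW0 hWE 3
      have h5 : (72 * E ^ 5) ^ 3 = 72 ^ 3 * L ^ (15 * ε) := by
        have h51 : (72 * E ^ 5) ^ 3 = 72 ^ 3 * E ^ 15 := by ring
        have h52 : E ^ 15 = L ^ (15 * ε) := by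
          rw [hE, ← Real.rpow_natCast (L ^ ε) 15, ← Real.rpow_mul hL0.le]
          congr 1
          push_cast
          ring
        rw [h51, h52]
      rw [← h5]; exact h4
    have h6 : W * ((8 * (A * r) : ℕ) : ℝ) / L ≤ 1152 * A * L ^ (5 * ε - g) := by
      have h7 : W * ((8 * (A * r) : ℕ) : ℝ) ≤ (72 * E ^ 5) * (16 * A * R) :=
        mul_le_mul hWE hbR (by positivity) (by positivity)
      have h8 : E ^ 5 * R / L = L ^ (5 * ε - g) := by
        rw [hE, hR, ← Real.rpow_natCast (L ^ ε), ← Real.rpow_mul hL0.le, ← Real.rpow_add hL0]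
        have h9 : L ^ (ε * ((5 : ℕ) : ℝ) + ρ) / L
            = L ^ (ε * ((5 : ℕ) : ℝ) + ρ) / L ^ (1 : ℝ) := by rw [Real.rpow_one]
        rw [h9, ← Real.rpow_sub hL0]
        congr 1
        rw [hρ1]
        push_cast
        ring
      calc W * ((8 * (A * r) : ℕ) : ℝ) / L ≤ (72 * E ^ 5) * (16 * A * R) / L :=
            div_le_div_of_nonneg_right h7 hL0.le
        _ = 1152 * A * (E ^ 5 * R / L) := by ring
        _ = 1152 * A * L ^ (5 * ε - g) := by rw [h8]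
    have h10 : (W * ((8 * (A * r) : ℕ) : ℝ) / L) ^ cf
        ≤ (1152 * (A : ℝ)) ^ cf * L ^ ((5 * ε - g) * cf) := by
      have h11 := Real.rpow_le_rpow (by positivity) h6 hcf.le
      rw [Real.mul_rpow (by positivity) (by positivity), ← Real.rpow_mul hL0.le] at h11
      exact h11
    have h12 : L ^ (15 * ε) * L ^ ((5 * ε - g) * cf) ≤ L ^ (-ε) := by
      rw [← Real.rpow_add hL0]
      apply Real.rpow_le_rpow_of_exponent_le hL1
      have h13 : (5 * ε - g) * cf ≤ -(g / 2) * cf :=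
        mul_le_mul_of_nonneg_right (by linarith) hcf.le
      linarith
    calc Cf * W ^ 3 * (W * ((8 * (A * r) : ℕ) : ℝ) / L) ^ cf
        ≤ Cf * (72 ^ 3 * L ^ (15 * ε)) * ((1152 * (A : ℝ)) ^ cf * L ^ ((5 * ε - g) * cf)) := by
          apply mul_le_mul _ h10 (by positivity) (by positivity)
          exact mul_le_mul_of_nonneg_left h3 hCf.le
      _ = C1 * (L ^ (15 * ε) * L ^ ((5 * ε - g) * cf)) := by rw [hC1]; ring
      _ ≤ C1 * L ^ (-ε) := mul_le_mul_of_nonneg_left h12 hC1p.le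
  have hterm2 : ((P : ℝ) + 1) ^ 2 * ((2 + 18 * (n : ℝ) ^ 2 * (n : ℝ) ^ (-4 : ℝ)) / (c3 * J1))
      ≤ 720 / c3 * L ^ (-ε) := by
    rw [← hL]
    have h1 : ((P : ℝ) + 1) ^ 2 ≤ (6 * E) ^ 2 := pow_le_pow_left₀ (by positivity) (by linarith) 2
    have h2 : L ^ 2 * L ^ (-4 : ℝ) ≤ 1 := by
      rw [← Real.rpow_natCast L 2, ← Real.rpow_add hL0]
      exact Real.rpow_le_one_of_one_le_of_nonpos hL1 (by norm_num)
    have h3 : 2 + 18 * L ^ 2 * L ^ (-4 : ℝ) ≤ 20 := by linarith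
    have h4 : (2 + 18 * L ^ 2 * L ^ (-4 : ℝ)) / (c3 * J1) ≤ 20 / (c3 * E ^ 3) := by
      apply div_le_div₀ (by norm_num) h3 (by positivity)
      exact mul_le_mul_of_nonneg_left hJE hc3.le
    have h5 : E * L ^ (-ε) = 1 := by
      rw [hE, ← Real.rpow_add hL0]; simp
    have hE0 : 0 < E := by linarith
    have h6 : L ^ (-ε) = 1 / E := by
      field_simp
      linarith
    calc ((P : ℝ) + 1) ^ 2 * ((2 + 18 * L ^ 2 * L ^ (-4 : ℝ)) / (c3 * J1))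
        ≤ (6 * E) ^ 2 * (20 / (c3 * E ^ 3)) :=
          mul_le_mul h1 h4 (by positivity) (by positivity)
      _ = 720 / c3 * (1 / E) := by field_simp; ring
      _ = 720 / c3 * L ^ (-ε) := by rw [h6]
  have h0 : 0 ≤ (n0 : ℝ) ^ ε * L ^ (-ε) := by positivity
  rw [← hL] at hterm1 hterm2 ⊢
  linarith

end Pool.Agent.Y554.DP
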