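import Pool.Agent.H389R2.Dim.Lower
import Pool.Agent.H974R2.Basic

/-!
Exceptional times of dynamical critical bond percolation on `ℤ²`: abstract parts.
-/

set_option autoImplicit false

namespace Pool.Agent.Y554.DP

open H974 Finset MeasureTheory

/-- LOWA: second moment method for the dimension. `N` equally spaced times of `[0,1)`, events of
probability `p` with pair correlations at most `C0 p² (distance)^(-γ)`: with a probability bounded
below the set of times at which the event holds is good at the scale `δ`. -/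
def S_LOWA : Prop := ∀ (s γ C0 : ℝ), 0 < s → 0 ≤ γ → s + γ < 1 → 0 < C0 →
    ∃ c p0 : ℝ, 0 < c ∧ 0 < p0 ∧
    ∀ (Ω : Type) [MeasurableSpace Ω] (μ : Measure Ω) [IsProbabilityMeasure μ] (N : ℕ)
      (E : ℕ → Set Ω) (p δ : ℝ), (∀ i, MeasurableSet (E i)) → 1 ≤ N → 0 < p → 0 < δ →
      1 ≤ N * p → δ ^ (-s) ≤ N * p → (∀ i, i < N → μ.real (E i) = p) →
      (∀ i j : ℕ, i < N → j < N → i ≠ j →
        μ.real (E i ∩ E j) ≤ C0 * p ^ 2 * (|(i:ℝ) - j| / N) ^ (-γ)) →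
      p0 ≤ μ.real {w | H389R2.Dim.Good s δ c {t : ℝ | ∃ i : ℕ, i < N ∧ t = (i:ℝ) / N ∧ w ∈ E i}}

/-- UPA: first moment method for the dimension. -/
def S_UPA : Prop := ∀ β : ℝ, 0 < β → β < 1 →
    ∀ (Ω : Type) [MeasurableSpace Ω] (μ : Measure Ω) [IsProbabilityMeasure μ]
      (E : Ω → Set ℝ) (C : ℝ) (A : ℕ → ℕ → Set Ω), (∀ w, E w ⊆ Set.Icc 0 1) →
      (∀ n i, MeasurableSet (A n i)) →
      (∀ n i : ℕ, i < 2 ^ n → μ.real (A n i) ≤ C * ((1 / 2 : ℝ) ^ n) ^ β) →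
      (∀ᵐ w ∂μ, ∀ t ∈ E w, ∀ n i : ℕ, i < 2 ^ n → (i:ℝ) / 2 ^ n ≤ t →
        t ≤ ((i:ℝ) + 1) / 2 ^ n → w ∈ A n i) →
      ∀ᵐ w ∂μ, dimH (E w) ≤ ENNReal.ofReal (1 - β)

/-- LAW: the set of the edges which are open at one of the times `t0 + j h`, `0 ≤ j ≤ K`, is
product Bernoulli. -/
def S_LAW : Prop := ∀ (Ω E : Type) [DecidableEq E] [MeasurableSpace Ω] (μ : Measure Ω)
    [IsProbabilityMeasure μ] (ω : ℝ → Ω → E → Bool),
    (∀ (t : ℝ) (x : E), Measurable (fun w => ω t w x)) →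
    (∀ (F : Finset E) (n : ℕ) (t : Fin (n + 1) → ℝ) (a : E → Fin (n + 1) → Bool),
      0 ≤ t 0 → Monotone t →
      μ {w | ∀ x ∈ F, ∀ i, ω (t i) w x = a x i} =
        ENNReal.ofReal (∏ x ∈ F, ((1 / 2 : ℝ) * ∏ i : Fin n,
          (if a x i.castSucc = a x i.succ
            then (1 + Real.exp (-(t i.succ - t i.castSucc))) / 2
            else (1 - Real.exp (-(t i.succ - t i.castSucc))) / 2)))) →
    ∀ (t0 h : ℝ) (K : ℕ), 0 ≤ t0 → 0 < h → ∀ (S : Finset E) (A : Finset E → Prop),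
      μ.real {w | A (S.filter (fun e => ∃ j : ℕ, j ≤ K ∧ ω (t0 + j * h) w e = true))} =
        Pr (fun _ => 1 - 1 / 2 * ((1 + Real.exp (-h)) / 2) ^ K) S A

end Pool.Agent.Y554.DP
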