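import Pool.Agent.Y554.DP.Cmp
import Pool.Agent.Y554.DP.NSL
import Pool.Agent.Y554.DP.A42
import Pool.Agent.Y554.DP.AS
import Pool.Agent.Y554.DP.QX
import Pool.Agent.Y554.DP.Stm2
import Pool.Agent.Y220.DP.LowA

/-! Lower bound for the dimension of the exceptional times. -/

set_option autoImplicit false

namespace Pool.Agent.Y554.DP

open H974 H12S H985T H389NS Finset MeasureTheory

theorem qx_all {lam : ℝ} (h0 : 0 < lam) (h1 : lam < 3 / 4) : S_QX lam := by
  have a1 : lam < (lam + 3 / 4) / 2 := by linarith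
  have a2 : (lam + 3 / 4) / 2 < ((lam + 3 / 4) / 2 + 3 / 4) / 2 := by linarith
  have hns : S_NS (((lam + 3 / 4) / 2 + 3 / 4) / 2) :=
    noise_sens_lam _ (by linarith) (by linarith)
  have ha := a42_lam (lam := ((lam + 3 / 4) / 2 + 3 / 4) / 2) (lam' := (lam + 3 / 4) / 2)
    (by linarith) a2 hns
  exact qX_bound h0 (ann_sum_lam h0 a1 ha)

theorem fam_opE {Ω : Type*} {ω : ℝ → Ω → Edg → Bool} {X : ℕ → ℕ → Set Edg → Prop} {α : ℝ}
    (hX : ArmFam X α) (a R : ℕ) (t : ℝ) (w : Ω) :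
    X a R (opE ω t w) ↔ X a R (↑((An a R).filter (fun e => ω t w e = true)) : Set Edg) := by
  apply hX.congr
  ext e
  simp only [opE, Set.mem_inter_iff, Set.mem_setOf_eq, Finset.coe_filter, Finset.mem_coe]
  tauto

theorem fam_one {Ω : Type*} [MeasurableSpace Ω] {μ : Measure Ω} [IsProbabilityMeasure μ]
    {ω : ℝ → Ω → Edg → Bool} {X : ℕ → ℕ → Set Edg → Prop} {α : ℝ} (hX : ArmFam X α)
    (h : IsDP μ ω) {t : ℝ} (ht : 0 ≤ t) (a R : ℕ) :
    μ.real {w | X a R (opE ω t w)} = PQ (1 / 2) (An a R) (fun F => X a R ↑F) := by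
  have h1 := dp_one h ht (An a R) (fun F => X a R (↑F : Set Edg))
  have h2 : {w | X a R (opE ω t w)} =
      {w | (fun F : Finset Edg => X a R (↑F : Set Edg))
        ((An a R).filter (fun e => ω t w e = true))} := by
    ext w
    exact fam_opE hX a R t w
  rw [h2, h1]
  rfl

theorem fam_two {Ω : Type*} [MeasurableSpace Ω] {μ : Measure Ω} [IsProbabilityMeasure μ]
    {ω : ℝ → Ω → Edg → Bool} {X : ℕ → ℕ → Set Edg → Prop} {α : ℝ} (hX : ArmFam X α)
    (h : IsDP μ ω) {s t : ℝ} (hs : 0 ≤ s) (hst : s ≤ t) (a R : ℕ) :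
    μ.real ({w | X a R (opE ω s w)} ∩ {w | X a R (opE ω t w)}) =
      qX X (Real.exp (-(t - s))) a R := by
  have h1 := dp_two h hs hst (An a R) (fun F => X a R (↑F : Set Edg))
    (fun F => X a R (↑F : Set Edg))
  have h2 : {w | X a R (opE ω s w)} ∩ {w | X a R (opE ω t w)} =
      {w | (fun F : Finset Edg => X a R (↑F : Set Edg))
          ((An a R).filter (fun e => ω s w e = true)) ∧
        (fun F : Finset Edg => X a R (↑F : Set Edg))
          ((An a R).filter (fun e => ω t w e = true))} := by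
    ext w
    exact and_congr (fam_opE hX a R s w) (fam_opE hX a R t w)
  rw [h2, h1]
  rfl

theorem low : S_LOW := by
  intro X α hX s hs hs1
  have hα := hX.pos
  have h1s : 0 < 1 - s := by linarith
  have hr : α / (1 - s) < 3 / 4 := by
    rw [div_lt_iff₀ h1s]
    linarith
  obtain ⟨lam, hlam⟩ : ∃ lam : ℝ, lam = (α / (1 - s) + 3 / 4) / 2 := ⟨_, rfl⟩
  have hr0 : 0 < α / (1 - s) := by positivity
  have hl1 : lam < 3 / 4 := by rw [hlam]; linarith
  have hl2 : α / (1 - s) < lam := by rw [hlam]; linarith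
  have hl0 : 0 < lam := by linarith
  obtain ⟨γ, hγ⟩ : ∃ γ : ℝ, γ = α / lam := ⟨_, rfl⟩
  have hγ0 : 0 < γ := by rw [hγ]; positivity
  have hγs : s + γ < 1 := by
    have h2 : γ < 1 - s := by
      rw [hγ, div_lt_iff₀ hl0]
      rw [div_lt_iff₀ h1s] at hl2
      linarith
    linarith
  obtain ⟨C, hC, hq⟩ := qx_all hl0 hl1 X α hX
  obtain ⟨c0, hc0, hlow⟩ := hX.lower
  obtain ⟨c, p0, hc, hp0, hmain⟩ := Pool.Agent.Y220.DP.lowa s γ (C * 2 ^ γ / c0 ^ 2) hs hγ0.le hγs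
    (by positivity)
  refine ⟨c, p0, hc, hp0, ?_⟩
  intro Ω _ μ _ ω h a R ha haR m
  have ha0 : (0:ℝ) < a := by exact_mod_cast ha
  have hR0 : (0:ℝ) < R := by exact_mod_cast (ha.trans haR)
  obtain ⟨p, hp⟩ : ∃ p : ℝ, p = PQ (1 / 2) (An a R) (fun F => X a R ↑F) := ⟨_, rfl⟩
  have hp1 : c0 * ((a:ℝ) / R) ^ α ≤ p := by rw [hp]; exact hlow a R ha haR
  have hpp : 0 < p := lt_of_lt_of_le (by positivity) hp1
  obtain ⟨δ, hδ⟩ : ∃ δ : ℝ, δ = (1 / 2 : ℝ) ^ m := ⟨_, rfl⟩
  have hδ0 : 0 < δ := by rw [hδ]; positivity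
  obtain ⟨n, hn⟩ := pow_unbounded_of_one_lt ((1 + δ ^ (-s)) / p) (one_lt_two (α := ℝ))
  rw [div_lt_iff₀ hpp] at hn
  have hδs : 0 < δ ^ (-s) := Real.rpow_pos_of_pos hδ0 _
  refine ⟨n, ?_⟩
  have hN0 : (0:ℝ) < 2 ^ n := by positivity
  have key := hmain Ω μ (2 ^ n) (fun i => {w | X a R (opE ω ((i:ℝ) / 2 ^ n) w)}) p δ
    (fun i => zo_meas1 hX a R (fun e _ t _ => h.meas t e) (by positivity))
    (Nat.one_le_two_pow) hpp hδ0 (by push_cast; linarith) (by push_cast; linarith)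
    (fun i _ => by rw [fam_one hX h (by positivity), hp])
    (by
      have hpair : ∀ i j : ℕ, i < j → j < 2 ^ n →
          μ.real ({w | X a R (opE ω ((i:ℝ) / 2 ^ n) w)} ∩ {w | X a R (opE ω ((j:ℝ) / 2 ^ n) w)}) ≤
            C * 2 ^ γ / c0 ^ 2 * p ^ 2 * (|(i:ℝ) - j| / ((2 ^ n : ℕ) : ℝ)) ^ (-γ) := by
        intro i j hij hj
        have hsi : (0:ℝ) ≤ (i:ℝ) / 2 ^ n := by positivity
        have hst : (i:ℝ) / 2 ^ n ≤ (j:ℝ) / 2 ^ n := by
          have : (i:ℝ) ≤ j := by exact_mod_cast hij.le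
          gcongr
        rw [fam_two hX h hsi hst]
        have hij' : (i:ℝ) < j := by exact_mod_cast hij
        have hj' : (j:ℝ) < 2 ^ n := by exact_mod_cast hj
        have hi0 : (0:ℝ) ≤ i := Nat.cast_nonneg _
        obtain ⟨d, hd⟩ : ∃ d : ℝ, d = ((j:ℝ) - i) / 2 ^ n := ⟨_, rfl⟩
        have hd0 : 0 < d := by rw [hd]; exact div_pos (by linarith) hN0
        have hd1 : d ≤ 1 := by rw [hd, div_le_one hN0]; linarith
        have e1 : (j:ℝ) / 2 ^ n - (i:ℝ) / 2 ^ n = d := by rw [hd, sub_div]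
        have e2 : |(i:ℝ) - j| / ((2 ^ n : ℕ) : ℝ) = d := by
          rw [abs_sub_comm, abs_of_pos (by linarith), hd]
          push_cast
          rfl
        rw [e1, e2]
        have h1 := F1c_exp hd0.le hd1
        have hx1 : Real.exp (-d) < 1 := by rw [Real.exp_lt_one_iff]; linarith
        have h2 := hq a R (Real.exp (-d)) ha haR (Real.exp_pos _).le hx1
        refine h2.trans ?_
        rw [← hγ]
        have h3 : (1 - Real.exp (-d)) ^ (-γ) ≤ (d / 2) ^ (-γ) :=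
          Real.rpow_le_rpow_of_nonpos (by positivity) h1 (by linarith)
        have h4 : (d / 2) ^ (-γ) = 2 ^ γ * d ^ (-γ) := by
          rw [Real.div_rpow hd0.le (by norm_num), Real.rpow_neg (by norm_num : (0:ℝ) ≤ 2),
            div_inv_eq_mul, mul_comm]
        have h5 : ((a:ℝ) / R) ^ (2 * α) ≤ p ^ 2 / c0 ^ 2 := by
          rw [le_div_iff₀ (by positivity)]
          have e : ((a:ℝ) / R) ^ (2 * α) = (((a:ℝ) / R) ^ α) ^ 2 := by
            rw [← Real.rpow_natCast, ← Real.rpow_mul (by positivity)]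
            congr 1
            push_cast
            ring
          rw [e, ← mul_pow, mul_comm]
          exact pow_le_pow_left₀ (by positivity) hp1 2
        rw [h4] at h3
        calc C * (1 - Real.exp (-d)) ^ (-γ) * ((a:ℝ) / R) ^ (2 * α)
            ≤ C * (2 ^ γ * d ^ (-γ)) * (p ^ 2 / c0 ^ 2) := by gcongr
          _ = C * 2 ^ γ / c0 ^ 2 * p ^ 2 * d ^ (-γ) := by ring
      intro i j hi hj hij
      rcases lt_or_gt_of_ne hij with h1 | h1
      · exact hpair i j h1 hj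
      · rw [Set.inter_comm, abs_sub_comm]
        exact hpair j i h1 hi)
  rw [hδ] at key
  refine key.trans (le_of_eq ?_)
  congr 1
  ext w
  have e3 : {t : ℝ | ∃ i : ℕ, i < 2 ^ n ∧ t = (i:ℝ) / ((2 ^ n : ℕ) : ℝ) ∧
      w ∈ (fun i : ℕ => {w | X a R (opE ω ((i:ℝ) / 2 ^ n) w)}) i} = DTn X ω n a R w := by
    ext t
    simp only [DTn, Set.mem_setOf_eq]
    push_cast
    constructor
    · rintro ⟨i, h1, h2, h3⟩
      exact ⟨i, h1, h2, by rw [h2]; exact h3⟩
    · rintro ⟨i, h1, h2, h3⟩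
      exact ⟨i, h1, h2, by rw [← h2]; exact h3⟩
  simp only [Set.mem_setOf_eq]
  rw [← e3]
  rfl

/-- Nested compact sets. -/
theorem good_nested {s c : ℝ} (hs : 0 < s) (hc : 0 < c) {D : ℕ → Set ℝ} (hD : Antitone D)
    (h01 : ∀ R, D R ⊆ Set.Icc 0 1)
    (hg : ∀ R m : ℕ, H389R2.Dim.Good s ((1 / 2 : ℝ) ^ m) c (D R)) :
    ENNReal.ofReal s ≤ dimH (⋂ R, closure (D R)) := by
  have hcl : ∀ R, closure (D R) ⊆ Set.Icc 0 1 := fun R => closure_minimal (h01 R) isClosed_Icc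
  have hK : IsCompact (⋂ R, closure (D R)) :=
    isCompact_Icc.of_isClosed_subset (isClosed_iInter fun R => isClosed_closure)
      ((Set.iInter_subset _ 0).trans (hcl 0))
  refine H389R2.Dim.le_dimH_of_good hs hc hK fun δ hδ => ?_
  obtain ⟨m, hm⟩ := exists_pow_lt_of_lt_one hδ (by norm_num : (1/2 : ℝ) < 1)
  intro T hT hcov
  have hopen : IsOpen (⋃ p ∈ T, Metric.ball p.1 p.2) :=
    isOpen_biUnion fun p _ => Metric.isOpen_ball
  obtain ⟨R, hR⟩ : ∃ R, closure (D R) ⊆ ⋃ p ∈ T, Metric.ball p.1 p.2 := by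
    have h1 := exists_subset_nhds_of_isCompact (V := fun R => closure (D R))
      (directed_of_isDirected_le fun i j hij => closure_mono (hD hij))
      (fun R => isCompact_Icc.of_isClosed_subset isClosed_closure (hcl R))
      (U := ⋃ p ∈ T, Metric.ball p.1 p.2)
      (fun x hx => hopen.mem_nhds (hcov hx))
    exact h1
  exact hg R m T (fun p hp => hm.le.trans (hT p hp)) (subset_closure.trans hR)

theorem dimL : S_DIML := by
  intro X α hX Ω _ μ _ ω h
  have hα := hX.pos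
  have hα2 := hX.small
  -- one exponent
  have main : ∀ s : ℝ, 0 < s → s < 1 - 4 / 3 * α → ∀ᵐ w ∂μ, ENNReal.ofReal s ≤ dimH (ET X ω w) := by
    intro s hs hs1
    obtain ⟨c, p0, hc, hp0, hlow⟩ := low X α hX s hs hs1
    obtain ⟨hmeas, h01⟩ := zo X α hX s c Ω μ ω h
    have hG : ∀ R m : ℕ, MeasurableSet (GG X ω s c 1 (1 + R) m) := fun R m =>
      MeasurableSet.iUnion fun n => zo_meas hX _ _ (fun e _ t _ => h.meas t e) _ _ _ _
    have hge : ∀ k : ℕ, p0 ≤ μ.real (GG X ω s c 1 (1 + k) k) := by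
      intro k
      obtain ⟨n, hn⟩ := hlow Ω μ ω h 1 (1 + k) le_rfl (by omega) k
      exact hn.trans (measureReal_mono (Set.subset_iUnion (fun n : ℕ =>
        {w | H389R2.Dim.Good s ((1 / 2 : ℝ) ^ k) c (DTn X ω n 1 (1 + k) w)}) n))
    have hanti : Antitone (fun k : ℕ => GG X ω s c 1 (1 + k) k) := fun k k' hk =>
      GG_outer hX (by omega) (by omega) hk
    have hpos : p0 ≤ μ.real (⋂ k : ℕ, GG X ω s c 1 (1 + k) k) := by
      have h3 := tendsto_measure_iInter_atTop (μ := μ) (s := fun k : ℕ => GG X ω s c 1 (1 + k) k)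
        (fun k => (hG k k).nullMeasurableSet) hanti ⟨0, measure_ne_top _ _⟩
      have h4 := (ENNReal.tendsto_toReal (measure_ne_top μ _)).comp h3
      exact ge_of_tendsto' h4 hge
    have hsub : (⋂ k : ℕ, GG X ω s c 1 (1 + k) k) ⊆
        ⋃ a : ℕ, ⋂ R : ℕ, ⋂ m : ℕ, GG X ω s c (a + 1) (a + 1 + R) m := by
      intro w hw
      rw [Set.mem_iUnion]
      refine ⟨0, ?_⟩
      rw [Set.mem_iInter] at hw
      refine Set.mem_iInter.2 fun R => Set.mem_iInter.2 fun m => ?_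
      have h1 := hw (max R m)
      exact GG_outer hX (by omega) (by omega) (le_max_right R m) h1
    have hone : μ (⋃ a : ℕ, ⋂ R : ℕ, ⋂ m : ℕ, GG X ω s c (a + 1) (a + 1 + R) m) = 1 := by
      rcases h01 with h0 | h1
      · exfalso
        have h2 : μ (⋂ k : ℕ, GG X ω s c 1 (1 + k) k) = 0 := measure_mono_null hsub h0
        rw [Measure.real, h2] at hpos
        simp at hpos
        linarith
      · exact h1
    have h4 : ∀ᵐ w ∂μ, w ∈ (⋃ a : ℕ, ⋂ R : ℕ, ⋂ m : ℕ, GG X ω s c (a + 1) (a + 1 + R) m) := by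
      have hmeas' : MeasurableSet
          (⋃ a : ℕ, ⋂ R : ℕ, ⋂ m : ℕ, GG X ω s c (a + 1) (a + 1 + R) m) := hmeas
      rw [← prob_compl_eq_zero_iff hmeas'] at hone
      exact hone
    have h5 : ∀ᵐ w ∂μ, ∀ (e : Edg) (a : ℕ), ∀ τ : ℝ, 0 < τ → τ ≤ 1 →
        ¬ (e ∈ opL ω τ w ↔ e ∈ opE ω τ w) → ∃ R : ℕ, ¬ X (a + 1) (a + 1 + R) (opL ω τ w) := by
      rw [ae_all_iff]
      intro e
      rw [ae_all_iff]
      intro a
      exact nj X α hX Ω μ ω h e (a + 1) (by omega)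
    filter_upwards [h.cadlag, h4, h5] with w hw1 hw2 hw3
    rw [Set.mem_iUnion] at hw2
    obtain ⟨a, ha⟩ := hw2
    rw [Set.mem_iInter] at ha
    have hD : Antitone (fun R : ℕ => DT X ω (a + 1) (a + 1 + R) w) := by
      rintro R R' hR t ⟨n, i, hi, ht, hX'⟩
      exact ⟨n, i, hi, ht, hX.outer (by omega) (by omega) hX'⟩
    have hD01 : ∀ R : ℕ, DT X ω (a + 1) (a + 1 + R) w ⊆ Set.Icc 0 1 := by
      rintro R t ⟨n, i, hi, ht, hX'⟩
      rw [ht]
      refine ⟨by positivity, ?_⟩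
      rw [div_le_one (by positivity)]
      exact_mod_cast hi.le
    have hdim := good_nested hs hc hD hD01 (by
      intro R m
      have h6 := ha R
      rw [Set.mem_iInter] at h6
      have h7 := h6 m
      unfold GG at h7
      rw [Set.mem_iUnion] at h7
      obtain ⟨n, hn⟩ := h7
      refine H389R2.Dim.Good.mono hn ?_
      rintro t ⟨i, hi, ht, hX'⟩
      exact ⟨n, i, hi, ht, hX'⟩)
    refine hdim.trans (dimH_mono ?_)
    intro t ht
    have h8 := cmp X α hX Ω ω w hw1 a (fun e τ => hw3 e a τ) t (Set.mem_iInter.1 ht)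
    exact ⟨h8.1, h8.2.1, a, h8.2.2⟩
  -- all exponents
  obtain ⟨S, hS⟩ : ∃ S : ℝ, S = 1 - 4 / 3 * α := ⟨_, rfl⟩
  have hS0 : 0 < S := by rw [hS]; linarith
  have hall : ∀ᵐ w ∂μ, ∀ k : ℕ, ENNReal.ofReal (S * (1 - 1 / ((k:ℝ) + 2))) ≤ dimH (ET X ω w) := by
    rw [ae_all_iff]
    intro k
    have h1 : 1 / ((k:ℝ) + 2) < 1 := by
      rw [div_lt_one (by positivity)]
      have : (0:ℝ) ≤ k := Nat.cast_nonneg _
      linarith
    have h2 : 0 < 1 / ((k:ℝ) + 2) := by positivity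
    refine main _ (mul_pos hS0 (by linarith)) ?_
    rw [← hS]
    nlinarith
  filter_upwards [hall] with w hw
  rw [← hS]
  have hlim : Filter.Tendsto (fun k : ℕ => ENNReal.ofReal (S * (1 - 1 / ((k:ℝ) + 2))))
      Filter.atTop (nhds (ENNReal.ofReal S)) := by
    apply ENNReal.tendsto_ofReal
    have h1 : Filter.Tendsto (fun k : ℕ => 1 / ((k:ℝ) + 2)) Filter.atTop (nhds 0) := by
      have h2 : Filter.Tendsto (fun k : ℕ => (k:ℝ) + 2) Filter.atTop Filter.atTop :=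
        Filter.tendsto_atTop_add_const_right _ _ tendsto_natCast_atTop_atTop
      exact Filter.Tendsto.div_atTop tendsto_const_nhds h2
    have h3 := (tendsto_const_nhds (x := (1:ℝ))).sub h1 |>.const_mul S
    simpa using h3
  exact le_of_tendsto' hlim hw

end Pool.Agent.Y554.DP
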