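import Pool.Agent.Y554.DP.Defs
import Pool.Agent.H389R2.NS.E1a
import Pool.Agent.Y996.RD.Perc
import Pool.Agent.H160R2.SA.Arm
import Pool.Agent.H985R3.TA.STA

/-! The one-arm family of critical bond percolation on `ℤ²`. -/

set_option autoImplicit false

namespace Pool.Agent.Y554.DP

open H974 H12S H985T H389NS Finset MeasureTheory

theorem OA_congr {a N : ℕ} {F G : Set Edg} (h : F ∩ ↑(An a N) = G ∩ ↑(An a N)) :
    OA a N F ↔ OA a N G := by
  unfold OA
  rw [h]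

theorem OA_inner {a b N : ℕ} {F : Set Edg} (hab : a ≤ b) (hN : b ≤ N) (h : OA a N F) :
    OA b N F := by
  obtain ⟨u, u', hu, hu', hr⟩ := h
  obtain ⟨v, hv, hv2⟩ := INDI_pexit hN (G := F ∩ ↑(An a N)) (F := F) Set.inter_subset_left
      (fun e he => (INDI_memAn.1 (mem_coe.1 he.2)).1) hu' hr.symm (by
        obtain ⟨h1, _⟩ := hu
        unfold inR at h1 ⊢
        omega)
  exact ⟨v, u', hv, hu', hv2⟩

theorem OA_outer {a b N : ℕ} {F : Set Edg} (hab : a ≤ b) (hN : b ≤ N) (h : OA a N F) :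
    OA a b F := by
  obtain ⟨u, u', hu, hu', hr⟩ := h
  have hin : inR (-(b:ℤ)) b (-(b:ℤ)) b u := by
    obtain ⟨h1, _⟩ := hu
    unfold inR at h1 ⊢
    omega
  obtain ⟨z, h1, h2, h3⟩ := first_exit hin hr (by
    obtain ⟨_, h1⟩ := hu'
    omega)
  refine ⟨u, z, hu, ⟨h1, h2⟩, h3.mono ?_⟩
  rintro x ⟨⟨k1, k2⟩, k3⟩
  exact ⟨k1, mem_coe.2 (INDI_memAn.2 ⟨mem_coe.1 k3, (INDI_memAn.1 (mem_coe.1 k2)).2⟩)⟩

/-- An edge whose flip changes the one-arm event. -/
theorem OA_flip {a N b1 b2 κ : ℕ} {e : Edg} (ha : 1 ≤ a) (h1 : a ≤ b1) (h2 : b2 ≤ N)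
    (hκ : 1 ≤ κ) (he1 : Disjoint (ebx e (κ + 3)) (boxE b1)) (he2 : ebx e (κ + 3) ⊆ boxE b2)
    {F : Finset Edg}
    (h : ¬ (OA a N (↑(insert e F) : Set Edg) ↔ OA a N (↑(F.erase e) : Set Edg))) :
    (A4e κ e (↑F : Set Edg) ∨ A4d κ e F) ∧ OA a b1 (↑F : Set Edg) ∧ OA b2 N (↑F : Set Edg) := by
  -- geometry
  have heE : e ∈ ebx e (κ + 3) := mem_ebx (by omega)
  have hebx2 : ∀ g : Edg, g ∈ ebx e (κ + 3) → g ∈ boxE b2 := fun g hg => he2 hg
  have hc1 : -(b2:ℤ) ≤ e.1 - (κ + 3) ∧ -(b2:ℤ) ≤ e.2.1 - (κ + 3) := by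
    have := hebx2 (e.1 - (κ + 3), e.2.1 - (κ + 3), true) (by
      unfold ebx
      rw [mem_RE_true]
      push_cast
      omega)
    unfold boxE at this
    rw [mem_RE_true] at this
    omega
  have hc2 : e.1 + (κ + 3) ≤ (b2:ℤ) ∧ e.2.1 + (κ + 3) ≤ (b2:ℤ) := by
    have := hebx2 (e.1 + (κ + 2), e.2.1 + (κ + 3), true) (by
      unfold ebx
      rw [mem_RE_true]
      push_cast
      omega)
    unfold boxE at this
    rw [mem_RE_true] at this
    omega
  have hsep : ∀ v : Vtx, -(b1:ℤ) ≤ v.1 → v.1 ≤ b1 → -(b1:ℤ) ≤ v.2 → v.2 ≤ b1 →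
      ¬ ((e.1 - (κ + 2) ≤ v.1 ∧ v.1 ≤ e.1 + (κ + 2)) ∧
        (e.2.1 - (κ + 3) ≤ v.2 ∧ v.2 ≤ e.2.1 + (κ + 3))) := by
    intro v k1 k2 k3 k4 k5
    have hb1 : 1 ≤ b1 := le_trans ha h1
    by_cases hv : v.1 < b1
    · have m1 : ((v.1, v.2, true) : Edg) ∈ ebx e (κ + 3) := by
        unfold ebx
        rw [mem_RE_true]
        push_cast
        omega
      have m2 : ((v.1, v.2, true) : Edg) ∈ boxE b1 := by
        unfold boxE
        rw [mem_RE_true]
        omega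
      exact (Finset.disjoint_left.mp he1 m1) m2
    · have m1 : ((v.1 - 1, v.2, true) : Edg) ∈ ebx e (κ + 3) := by
        unfold ebx
        rw [mem_RE_true]
        push_cast
        omega
      have m2 : ((v.1 - 1, v.2, true) : Edg) ∈ boxE b1 := by
        unfold boxE
        rw [mem_RE_true]
        omega
      exact (Finset.disjoint_left.mp he1 m1) m2
  have hb12 : b1 < b2 := by
    by_contra hcon
    push Not at hcon
    have hsub : e ∈ boxE b1 := by
      have := he2 heE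
      unfold boxE at this ⊢
      exact RE_subset (by omega) (by omega) (by omega) (by omega) this
    exact (Finset.disjoint_left.mp he1 heE) hsub
  have hboxmono : ∀ {m n : ℕ}, m ≤ n → boxE m ⊆ boxE n := by
    intro m n hmn
    unfold boxE
    exact RE_subset (by omega) (by omega) (by omega) (by omega)
  have hebxmono : ∀ {m : ℕ}, m ≤ κ + 3 → ebx e m ⊆ ebx e (κ + 3) := by
    intro m hm
    unfold ebx
    exact RE_subset (by omega) (by omega) (by omega) (by omega)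
  have hAn : ∀ g ∈ ebx e (κ + 3), g ∈ An a N := by
    intro g hg
    refine INDI_memAn.2 ⟨hboxmono h2 (he2 hg), fun hga => ?_⟩
    exact (Finset.disjoint_left.mp he1 hg) (hboxmono h1 hga)
  have heAn : e ∈ An a N := hAn e heE
  have heb1 : e ∉ boxE b1 := Finset.disjoint_left.mp he1 heE
  have heb2 : e ∈ boxE b2 := he2 heE
  have hplus : (↑(insert e F) : Set Edg) = insert e (↑F : Set Edg) := Finset.coe_insert _ _
  have hminus : (↑(F.erase e) : Set Edg) = (↑F : Set Edg) \ {e} := Finset.coe_erase _ _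
  rw [hplus, hminus] at h
  -- one of the two configurations satisfies the event
  have hone : OA a N (insert e (↑F : Set Edg)) ∨ OA a N ((↑F : Set Edg) \ {e}) := by tauto
  have hinner : OA a b1 (↑F : Set Edg) := by
    rcases hone with hh | hh
    · have := OA_outer h1 (by omega) hh
      refine (OA_congr ?_).mp this
      ext g
      simp only [Set.mem_inter_iff, Set.mem_insert_iff, mem_coe, INDI_memAn]
      constructor
      · rintro ⟨rfl | h3, h4⟩
        · exact absurd h4.1 heb1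
        · exact ⟨h3, h4⟩
      · rintro ⟨h3, h4⟩
        exact ⟨Or.inr h3, h4⟩
    · have := OA_outer h1 (by omega) hh
      refine (OA_congr ?_).mp this
      ext g
      simp only [Set.mem_inter_iff, Set.mem_sdiff, Set.mem_singleton_iff, mem_coe, INDI_memAn]
      constructor
      · rintro ⟨⟨h3, _⟩, h4⟩
        exact ⟨h3, h4⟩
      · rintro ⟨h3, h4⟩
        refine ⟨⟨h3, ?_⟩, h4⟩
        rintro rfl
        exact heb1 h4.1
  have houter : OA b2 N (↑F : Set Edg) := by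
    rcases hone with hh | hh
    · have := OA_inner (show a ≤ b2 by omega) h2 hh
      refine (OA_congr ?_).mp this
      ext g
      simp only [Set.mem_inter_iff, Set.mem_insert_iff, mem_coe, INDI_memAn]
      constructor
      · rintro ⟨rfl | h3, h4⟩
        · exact absurd heb2 h4.2
        · exact ⟨h3, h4⟩
      · rintro ⟨h3, h4⟩
        exact ⟨Or.inr h3, h4⟩
    · have := OA_inner (show a ≤ b2 by omega) h2 hh
      refine (OA_congr ?_).mp this
      ext g
      simp only [Set.mem_inter_iff, Set.mem_sdiff, Set.mem_singleton_iff, mem_coe, INDI_memAn]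
      constructor
      · rintro ⟨⟨h3, _⟩, h4⟩
        exact ⟨h3, h4⟩
      · rintro ⟨h3, h4⟩
        refine ⟨⟨h3, ?_⟩, h4⟩
        rintro rfl
        exact h4.2 heb2
  refine ⟨?_, hinner, houter⟩
  by_cases hP : OA a N (insert e (↑F : Set Edg))
  · -- the open crossing needs `e`
    left
    have hM : ¬ OA a N ((↑F : Set Edg) \ {e}) := fun hh => h ⟨fun _ => hh, fun _ => hP⟩
    obtain ⟨u, u', hu, hu', hr⟩ := hP
    have hpv : Pv {v | onB a v} {v | onB N v} e ((↑F : Set Edg) ∩ ↑(An a N)) := by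
      refine ⟨⟨u, hu, u', hu', ?_⟩, ?_⟩
      · refine hr.mono ?_
        rintro g ⟨rfl | k1, k2⟩
        · exact Or.inl rfl
        · exact Or.inr ⟨k1, k2⟩
      · rintro ⟨x, hx, y, hy, hxy⟩
        apply hM
        refine ⟨x, y, hx, hy, hxy.mono ?_⟩
        rintro g ⟨⟨k1, k2⟩, k3⟩
        exact ⟨⟨k1, k3⟩, k2⟩
    have hA : A4e κ e ((↑F : Set Edg) ∩ ↑(An a N)) := by
      unfold A4e
      refine loc_a4 (mem_ebx hκ) ?_ hpv
      rintro v (hv | hv) hin
      · obtain ⟨hv1, _⟩ := (show onB a v from hv)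
        unfold inR at hv1
        exact hsep v (by omega) (by omega) (by omega) (by omega) (by omega)
      · obtain ⟨hv1, hv2⟩ := (show onB N v from hv)
        unfold inR at hv1
        omega
    refine (A4e_local ?_).mp hA
    ext g
    simp only [Set.mem_inter_iff, mem_coe]
    constructor
    · rintro ⟨⟨k1, _⟩, k3⟩
      exact ⟨k1, k3⟩
    · rintro ⟨k1, k3⟩
      exact ⟨⟨k1, hAn g (hebxmono (by omega) k3)⟩, k3⟩
  · -- the event is increasing
    exfalso
    have hM : OA a N ((↑F : Set Edg) \ {e}) := hone.resolve_left hP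
    apply hP
    obtain ⟨u, u', hu, hu', hr⟩ := hM
    refine ⟨u, u', hu, hu', hr.mono ?_⟩
    rintro g ⟨⟨k1, _⟩, k3⟩
    exact ⟨Or.inr k1, k3⟩

theorem OA_XArm (a N : ℕ) (F : Finset Edg) : OA a N (↑F : Set Edg) ↔ XArm a N F := by
  unfold OA XArm An
  rfl

theorem OA_upper : ∃ C : ℝ, 0 < C ∧ ∀ a N : ℕ, 1 ≤ a → a ≤ N →
    PQ (1 / 2) (An a N) (fun F => OA a N ↑F) ≤ C * ((a:ℝ) / N) ^ (5 / 48 : ℝ) := by
  obtain ⟨c, C, hc, hC, h⟩ := Pool.Agent.H160R2.SA.arSharp
  have hS : Pool.Agent.Y996.RD.Sharp c C := h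
  have hk := kap_pos
  refine ⟨3 + 3 * C / (c * kap), by positivity, ?_⟩
  intro a N ha haN
  have ha0 : (0:ℝ) < a := by exact_mod_cast ha
  have hN0 : (0:ℝ) < N := by exact_mod_cast (by omega : 0 < N)
  have hP : PQ (1 / 2) (An a N) (fun F => OA a N ↑F) ≤ barm (1 / 2) a N := by
    unfold barm PQ
    have hsub : An a N ⊆ boxE N := by unfold An; exact Finset.sdiff_subset
    rw [← Pr_local (p := fun _ => (1/2:ℝ)) hsub (A := fun F => OA a N (↑F : Set Edg))
      (fun F _ => by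
        apply OA_congr
        rw [Finset.coe_inter, Set.inter_assoc, Set.inter_self])]
    refine Pr_mono (okq (by norm_num) (by norm_num)) fun F _ hF => ?_
    obtain ⟨u, v, h1, h2, h3⟩ := hF
    refine ⟨u, v, h1.1, h2, h3.mono ?_⟩
    rintro e ⟨k1, k2⟩
    exact ⟨k1, mem_coe.2 (hsub (mem_coe.1 k2))⟩
  by_cases h3 : 3 * a ≤ N
  · refine hP.trans ((Pool.Agent.Y996.RD.barm_le hc hC hS ha h3).trans ?_)
    have : 0 ≤ 3 * ((a:ℝ) / N) ^ ((5:ℝ) / 48) := by positivity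
    nlinarith
  · have h1 : PQ (1 / 2) (An a N) (fun F => OA a N ↑F) ≤ 1 :=
      Pr_le_one (okq (by norm_num) (by norm_num)) _ _
    have h2 : (1:ℝ) / 3 ≤ (a:ℝ) / N := by
      rw [div_le_div_iff₀ (by norm_num) hN0]
      have : N ≤ 3 * a := by omega
      have : (N:ℝ) ≤ 3 * a := by exact_mod_cast this
      linarith
    have h4 : (1:ℝ) / 3 ≤ ((a:ℝ) / N) ^ (5 / 48 : ℝ) := by
      calc (1:ℝ) / 3 ≤ (a:ℝ) / N := h2
        _ = ((a:ℝ) / N) ^ (1:ℝ) := by rw [Real.rpow_one]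
        _ ≤ ((a:ℝ) / N) ^ (5 / 48 : ℝ) := by
            apply Real.rpow_le_rpow_of_exponent_ge (by positivity) _ (by norm_num)
            rw [div_le_one hN0]
            exact_mod_cast haN
    have h5 : 0 ≤ 3 * C / (c * kap) * ((a:ℝ) / N) ^ (5 / 48 : ℝ) := by positivity
    nlinarith

theorem OA_lower : ∃ c : ℝ, 0 < c ∧ ∀ a N : ℕ, 1 ≤ a → a ≤ N →
    c * ((a:ℝ) / N) ^ (5 / 48 : ℝ) ≤ PQ (1 / 2) (An a N) (fun F => OA a N ↑F) := by
  obtain ⟨c, C, hc, hC, h⟩ := Pool.Agent.H160R2.SA.arSharp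
  refine ⟨c / C, by positivity, ?_⟩
  intro m n hm hmn
  have hm0 : (0:ℝ) < m := by exact_mod_cast hm
  have hn0 : (0:ℝ) < n := by exact_mod_cast (by omega : 0 < n)
  have ok : Ok (fun _ : Edg => (1/2:ℝ)) := okq (by norm_num) (by norm_num)
  have s1 : boxE m ⊆ boxE n := H974.boxE_mono hmn
  have i1 := Pr_indep (p := fun _ => (1/2:ℝ)) (U := boxE n) (S := boxE m) (T := boxE n \ boxE m)
    s1 Finset.sdiff_subset Finset.disjoint_sdiff (A := Arm m) (B := XArm m n)
    (fun F _ => Arm_local (Finset.Subset.refl _)) (fun F _ => XArm_local (Finset.Subset.refl _))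
  have i2 : arm (1/2) n ≤ Pr (fun _ => (1/2:ℝ)) (boxE n) (fun F => Arm m F ∧ XArm m n F) := by
    unfold arm
    exact Pr_mono ok (fun F _ h => Pool.Agent.Y996.RD.xarm_of_arm hmn h)
  have i3 : Pr (fun _ => (1/2:ℝ)) (boxE n) (XArm m n) =
      PQ (1 / 2) (An m n) (fun F => OA m n ↑F) := by
    unfold PQ
    have hsub : An m n ⊆ boxE n := by unfold An; exact Finset.sdiff_subset
    exact Pr_local hsub (fun F _ => XArm_local (Finset.Subset.refl _))
  rw [i1, pr_Arm (1/2) s1, i3] at i2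
  set b := PQ (1 / 2) (An m n) (fun F => OA m n ↑F) with hb
  have hb0 : 0 ≤ b := Pr_nonneg ok _ _
  have i4 := (h n (hm.trans hmn)).1
  have i5 := (h m hm).2
  have i6 : c * (n : ℝ) ^ (-(5 / 48 : ℝ)) ≤ C * (m : ℝ) ^ (-(5 / 48 : ℝ)) * b :=
    i4.trans (i2.trans (mul_le_mul_of_nonneg_right i5 hb0))
  have hmp : 0 < (m:ℝ) ^ ((5:ℝ)/48) := Real.rpow_pos_of_pos hm0 _
  have hnp : 0 < (n:ℝ) ^ ((5:ℝ)/48) := Real.rpow_pos_of_pos hn0 _
  rw [Real.div_rpow hm0.le hn0.le]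
  rw [Real.rpow_neg hn0.le, Real.rpow_neg hm0.le] at i6
  have i7 := mul_le_mul_of_nonneg_left i6 (show 0 ≤ (m:ℝ) ^ ((5:ℝ)/48) / C by positivity)
  calc c / C * ((m:ℝ) ^ ((5:ℝ)/48) / (n:ℝ) ^ ((5:ℝ)/48))
      = (m:ℝ) ^ ((5:ℝ)/48) / C * (c * ((n:ℝ) ^ ((5:ℝ)/48))⁻¹) := by field_simp
    _ ≤ (m:ℝ) ^ ((5:ℝ)/48) / C * (C * ((m:ℝ) ^ ((5:ℝ)/48))⁻¹ * b) := i7
    _ = b := by field_simp

theorem OA_fam : S_OAF where
  congr := OA_congr
  inner := OA_inner
  outer := OA_outer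
  flip := fun h1 h2 h3 h4 h5 h6 => OA_flip h1 h2 h3 h4 h5 h6
  pos := by norm_num
  small := by norm_num
  upper := OA_upper
  lower := OA_lower

theorem AA_fam : S_AAF where
  congr := AA_congr
  inner := fun h1 h2 h => AA_mono h1 h2 h
  outer := fun h1 h2 h => AA_outer h1 h2 h
  flip := fun h1 h2 h3 h4 h5 h6 => AA_flip h1 h2 h3 h4 h5 h6
  pos := by norm_num
  small := by norm_num
  upper := AA_upper
  lower := pAA_lower

end Pool.Agent.Y554.DP
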