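import Pool.Agent.Y554.DP.Stm3
import Pool.Agent.Y554.DP.OAF
import Pool.Agent.Y554.DP.Low
import Pool.Agent.Y554.NC.Theta
import Pool.Agent.Y681.DP.Upa
import Pool.Agent.Y363.DP.Law

/-! Upper bounds: one open arm at some time of a short interval. -/

set_option autoImplicit false

namespace Pool.Agent.Y554.DP

open H974 H12S H985T H389NS Finset MeasureTheory

theorem OA_mono {a N : ℕ} {F G : Set Edg} (h : ∀ e ∈ An a N, e ∈ F → e ∈ G) (hF : OA a N F) :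
    OA a N G := by
  obtain ⟨u, u', hu, hu', hr⟩ := hF
  refine ⟨u, u', hu, hu', hr.mono ?_⟩
  rintro e ⟨h1, h2⟩
  exact ⟨h e (mem_coe.1 h2) h1, h2⟩

/-- The one-arm probability of an annulus and of a box. -/
theorem OA_le_arm {p : ℝ} (hp : 1 / 2 ≤ p) (hp1 : p ≤ 1) {a N : ℕ} (ha : 1 ≤ a)
    (haN : 3 * a ≤ N) :
    kap * arm (1 / 2) (3 * a) * PQ p (An a N) (fun F => OA a N ↑F) ≤ arm p N := by
  have h0 : 0 ≤ p := by linarith
  have hk := kap_pos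
  have hP : PQ p (An a N) (fun F => OA a N ↑F) ≤ barm p a N := by
    unfold barm PQ
    have hsub : An a N ⊆ boxE N := by unfold An; exact Finset.sdiff_subset
    rw [← Pr_local (p := fun _ => p) hsub (A := fun F => OA a N (↑F : Set Edg))
      (fun F _ => by
        apply OA_congr
        rw [Finset.coe_inter, Set.inter_assoc, Set.inter_self])]
    refine Pr_mono (okq h0 hp1) fun F _ hF => ?_
    obtain ⟨u, v, h1, h2, h3⟩ := hF
    refine ⟨u, v, h1.1, h2, h3.mono ?_⟩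
    rintro e ⟨k1, k2⟩
    exact ⟨k1, mem_coe.2 (hsub (mem_coe.1 k2))⟩
  have h1 : kap * (arm p (3 * a) * barm p a N) ≤ arm p N := arm_glue hp hp1 ha haN
  have h2 : arm (1 / 2) (3 * a) ≤ arm p (3 * a) :=
    arm_mono_param (by norm_num) hp hp1 _
  have h3 : 0 ≤ PQ p (An a N) (fun F => OA a N ↑F) := Pr_nonneg (okq h0 hp1) _ _
  have h4 := arm_nonneg (by norm_num : (0:ℝ) ≤ 1/2) (by norm_num) (3 * a)
  calc kap * arm (1 / 2) (3 * a) * PQ p (An a N) (fun F => OA a N ↑F)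
      = kap * (arm (1 / 2) (3 * a) * PQ p (An a N) (fun F => OA a N ↑F)) := by ring
    _ ≤ kap * (arm p (3 * a) * barm p a N) := by
        apply mul_le_mul_of_nonneg_left _ hk.le
        exact mul_le_mul h2 hP h3 (arm_nonneg h0 hp1 _)
    _ ≤ arm p N := h1

/-- The parameter of the union over a grid. -/
theorem pk_le {h : ℝ} (h0 : 0 ≤ h) (k : ℕ) :
    1 / 2 ≤ 1 - 1 / 2 * ((1 + Real.exp (-(h / 2 ^ k))) / 2) ^ (2 ^ k) ∧
    1 - 1 / 2 * ((1 + Real.exp (-(h / 2 ^ k))) / 2) ^ (2 ^ k) ≤ 1 / 2 + h / 4 := by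
  have hK : (0:ℝ) < 2 ^ k := by positivity
  have hx0 : 0 ≤ h / 2 ^ k := by positivity
  have hexp : 1 - h / 2 ^ k ≤ Real.exp (-(h / 2 ^ k)) := by
    have := Real.add_one_le_exp (-(h / 2 ^ k))
    linarith
  have hexp1 : Real.exp (-(h / 2 ^ k)) ≤ 1 := by
    rw [Real.exp_le_one_iff]; linarith
  have hepos := Real.exp_pos (-(h / 2 ^ k))
  obtain ⟨y, hy⟩ : ∃ y : ℝ, y = (1 + Real.exp (-(h / 2 ^ k))) / 2 := ⟨_, rfl⟩
  rw [← hy]
  have hy0 : 0 ≤ y := by rw [hy]; linarith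
  have hy1 : y ≤ 1 := by rw [hy]; linarith
  have hpow1 : y ^ (2 ^ k) ≤ 1 := pow_le_one₀ hy0 hy1
  refine ⟨by linarith, ?_⟩
  have hb := one_add_mul_le_pow (a := y - 1) (by linarith) (2 ^ k)
  rw [show 1 + (y - 1) = y by ring] at hb
  push_cast at hb
  have h2 : -(h / 2) ≤ (2:ℝ) ^ k * (y - 1) := by
    have h3 : -(h / 2 ^ k) / 2 ≤ y - 1 := by rw [hy]; linarith
    have h4 := mul_le_mul_of_nonneg_left h3 hK.le
    have h5 : (2:ℝ) ^ k * (-(h / 2 ^ k) / 2) = -(h / 2) := by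
      field_simp
    linarith
  linarith

/-- The event that there is an arm at some time of the interval is contained in the increasing
union of the events for the grids. -/
theorem grid_cover {Ω : Type*} {ω : ℝ → Ω → Edg → Bool} {w : Ω} {a n : ℕ} {b h t : ℝ}
    (hc : ∀ e : Edg, ∀ t : ℝ, 0 ≤ t → ∃ ε > 0, ∀ s : ℝ, t ≤ s → s < t + ε → ω s w e = ω t w e)
    (hb : 0 ≤ b) (h0 : 0 < h) (ht1 : b ≤ t) (ht2 : t ≤ b + h) (hA : OA a n (opE ω t w)) :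
    ∃ k : ℕ, OA a n (↑((An a n).filter
      (fun e => ∃ j : ℕ, j ≤ 2 ^ k ∧ ω (b + j * (h / 2 ^ k)) w e = true)) : Set Edg) := by
  obtain ⟨ε, hε, hE⟩ := common_eps408 (An a n)
      (fun e ε => ∀ s : ℝ, t ≤ s → s < t + ε → ω s w e = ω t w e)
      (fun e => hc e t (hb.trans ht1))
      (fun e ε ε' h _ h2 s hs1 hs2 => h s hs1 (by linarith))
  obtain ⟨k, hk⟩ := pow_unbounded_of_one_lt (h / ε) (one_lt_two (α := ℝ))
  refine ⟨k, ?_⟩
  have hK : (0:ℝ) < 2 ^ k := by positivity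
  have hstep : h / 2 ^ k < ε := by
    rw [div_lt_iff₀ hK]
    rw [div_lt_iff₀ hε] at hk
    linarith
  have hst0 : 0 < h / 2 ^ k := by positivity
  obtain ⟨j, hj⟩ : ∃ j : ℕ, j = ⌈(t - b) / (h / 2 ^ k)⌉₊ := ⟨_, rfl⟩
  have hnn : 0 ≤ (t - b) / (h / 2 ^ k) := div_nonneg (by linarith) hst0.le
  have hj1 : (t - b) / (h / 2 ^ k) ≤ j := by rw [hj]; exact Nat.le_ceil _
  have hj2 : (j:ℝ) < (t - b) / (h / 2 ^ k) + 1 := by rw [hj]; exact Nat.ceil_lt_add_one hnn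
  rw [div_le_iff₀ hst0] at hj1
  have hj3 : (j:ℝ) * (h / 2 ^ k) < (t - b) + h / 2 ^ k := by
    have := mul_lt_mul_of_pos_right hj2 hst0
    rw [add_mul, div_mul_cancel₀ _ hst0.ne', one_mul] at this
    exact this
  have hjK : j ≤ 2 ^ k := by
    rw [hj]
    apply Nat.ceil_le.2
    rw [div_le_iff₀ hst0]
    push_cast
    have : (2:ℝ) ^ k * (h / 2 ^ k) = h := by field_simp
    rw [this]
    linarith
  refine OA_mono (fun e he hF => ?_) hA
  rw [coe_filter]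
  refine ⟨he, j, hjK, ?_⟩
  rw [hE e he (b + j * (h / 2 ^ k)) (by linarith) (by linarith)]
  exact hF

/-- Bound for the event that there is an arm at some time of a short interval. -/
theorem arm_interval {Ω : Type} [MeasurableSpace Ω] {μ : Measure Ω} [IsProbabilityMeasure μ]
    {ω : ℝ → Ω → Edg → Bool} (hdp : IsDP μ ω) {a n : ℕ} {b h B : ℝ} (hb : 0 ≤ b)
    (h0 : 0 < h) (hB : ∀ p : ℝ, 1 / 2 ≤ p → p ≤ 1 / 2 + h / 4 →
      PQ p (An a n) (fun F => OA a n ↑F) ≤ B) :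
    μ.real {w | ∃ t : ℝ, b ≤ t ∧ t ≤ b + h ∧ OA a n (opE ω t w)} ≤ B := by
  classical
  set G : ℕ → Set Ω := fun k => {w | (fun F : Finset Edg => OA a n (↑F : Set Edg))
    ((An a n).filter (fun e => ∃ j : ℕ, j ≤ 2 ^ k ∧ ω (b + j * (h / 2 ^ k)) w e = true))} with hG
  have hGB : ∀ k, μ.real (G k) ≤ B := by
    intro k
    have h1 := Pool.Agent.Y363.DP.law Ω Edg μ ω hdp.meas hdp.fdd b (h / 2 ^ k) (2 ^ k) hb
      (by positivity) (An a n) (fun F => OA a n (↑F : Set Edg))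
    obtain ⟨h2, h3⟩ := pk_le h0.le k
    refine (le_of_eq ?_).trans (hB _ h2 h3)
    rw [hG]
    exact h1
  have hmono : Monotone G := by
    apply monotone_nat_of_le_succ
    intro k w hw
    show OA a n _
    refine OA_mono (fun e he hF => ?_) (show OA a n _ from hw)
    rw [coe_filter] at hF ⊢
    obtain ⟨-, j, hj, hj2⟩ := hF
    refine ⟨he, 2 * j, ?_, ?_⟩
    · rw [pow_succ]; omega
    · rw [← hj2]
      congr 2
      push_cast
      rw [pow_succ]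
      field_simp
  have hcov : ∀ᵐ w ∂μ, w ∈ {w | ∃ t : ℝ, b ≤ t ∧ t ≤ b + h ∧ OA a n (opE ω t w)} →
      w ∈ ⋃ k, G k := by
    filter_upwards [hdp.cadlag] with w hw
    rintro ⟨t, h1, h2, h3⟩
    obtain ⟨k, hk⟩ := grid_cover (fun e => (hw e).1) hb h0 h1 h2 h3
    exact Set.mem_iUnion.2 ⟨k, hk⟩
  have h1 : μ {w | ∃ t : ℝ, b ≤ t ∧ t ≤ b + h ∧ OA a n (opE ω t w)} ≤ μ (⋃ k, G k) :=
    measure_mono_ae hcov
  have h2 : Filter.Tendsto (fun k => μ (G k)) Filter.atTop (nhds (μ (⋃ k, G k))) :=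
    tendsto_measure_iUnion_atTop hmono
  have h3 := (ENNReal.tendsto_toReal (measure_ne_top μ _)).comp h2
  have h4 : (μ (⋃ k, G k)).toReal ≤ B := le_of_tendsto' h3 hGB
  exact (ENNReal.toReal_mono (measure_ne_top μ _) h1).trans h4

/-- Upper bound of the first-moment type for the family `X` with the inner radius `a + 1`. -/
def UB (X : ℕ → ℕ → Set Edg → Prop) (γ : ℝ) (a : ℕ) : Prop := ∃ C : ℝ, 0 < C ∧
    ∀ (Ω : Type) [MeasurableSpace Ω] (μ : Measure Ω) [IsProbabilityMeasure μ]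
      (ω : ℝ → Ω → Edg → Bool), IsDP μ ω → ∀ b h : ℝ, 0 ≤ b → 0 < h → h ≤ 1 →
      μ.real {w | ∃ t : ℝ, b ≤ t ∧ t ≤ b + h ∧ ∀ R : ℕ, X (a + 1) (a + 1 + R) (opE ω t w)} ≤
        C * h ^ γ

theorem UB_OA (a : ℕ) : UB OA (5 / 36) a := by
  obtain ⟨κ, β, hκ, hβ, hst⟩ := Pool.Agent.W424.NC.armS
  obtain ⟨cc, C, hcc, hC, harm⟩ := Pool.Agent.W424.NC.arm_crit
  have hk := kap_pos
  have ha3 : 0 < arm (1 / 2) (3 * (a + 1)) :=
    lt_of_lt_of_le (by positivity) (harm (3 * (a + 1)) (by omega)).1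
  obtain ⟨D, hD⟩ : ∃ D : ℝ, D = kap * arm (1 / 2) (3 * (a + 1)) := ⟨_, rfl⟩
  have hD0 : 0 < D := by rw [hD]; positivity
  -- the radius
  obtain ⟨C1, hC1⟩ : ∃ C1 : ℝ, C1 = (2:ℝ) ^ (5 / 48 : ℝ) * (4 * β) ^ (-(5 / 36) : ℝ) := ⟨_, rfl⟩
  have hC10 : 0 < C1 := by rw [hC1]; positivity
  obtain ⟨C2, hC2⟩ : ∃ C2 : ℝ, C2 = (3 * (a + 1) : ℝ) ^ (5 / 48 : ℝ) := ⟨_, rfl⟩
  have hC20 : 0 < C2 := by rw [hC2]; positivity
  refine ⟨3 * C * C1 / D + C2 * C1 + (4 * β) ^ (-(5 / 36) : ℝ), by positivity, ?_⟩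
  intro Ω _ μ _ ω hdp b h hb h0 h1
  have hh0 : 0 < h ^ (5 / 36 : ℝ) := Real.rpow_pos_of_pos h0 _
  have t1 : 0 ≤ 3 * C * C1 / D * h ^ (5 / 36 : ℝ) := by positivity
  have t2 : 0 ≤ C2 * C1 * h ^ (5 / 36 : ℝ) := by positivity
  have t3 : 0 ≤ (4 * β) ^ (-(5 / 36) : ℝ) * h ^ (5 / 36 : ℝ) := by positivity
  have hsum : (3 * C * C1 / D + C2 * C1 + (4 * β) ^ (-(5 / 36) : ℝ)) * h ^ (5 / 36 : ℝ) =
      3 * C * C1 / D * h ^ (5 / 36 : ℝ) + C2 * C1 * h ^ (5 / 36 : ℝ) +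
        (4 * β) ^ (-(5 / 36) : ℝ) * h ^ (5 / 36 : ℝ) := by ring
  have hone : μ.real {w | ∃ t : ℝ, b ≤ t ∧ t ≤ b + h ∧
      ∀ R : ℕ, OA (a + 1) (a + 1 + R) (opE ω t w)} ≤ 1 := measureReal_le_one
  rcases lt_or_ge β (h / 4) with hbs | hbs
  · have h2 : (4 * β) ^ (5 / 36 : ℝ) ≤ h ^ (5 / 36 : ℝ) :=
      Real.rpow_le_rpow (by positivity) (by linarith) (by norm_num)
    have h3 : 1 ≤ (4 * β) ^ (-(5 / 36) : ℝ) * h ^ (5 / 36 : ℝ) := by
      rw [Real.rpow_neg (by positivity), ← div_eq_inv_mul, le_div_iff₀ (by positivity), one_mul]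
      exact h2
    rw [hsum]
    linarith
  · obtain ⟨n, hn1, hwin, hnx, hxn⟩ := Pool.Agent.Y554.NC.scale_exists hβ
      (by positivity : 0 < h / 4) hbs
    have hn0 : (0:ℝ) < n := by exact_mod_cast hn1
    have hx0 : 0 < (β / (h / 4)) ^ (4 / 3 : ℝ) := by positivity
    have h7 : (n:ℝ) ^ (-(5 / 48) : ℝ) ≤ C1 * h ^ (5 / 36 : ℝ) := by
      calc (n:ℝ) ^ (-(5 / 48) : ℝ) ≤ ((β / (h / 4)) ^ (4 / 3 : ℝ) / 2) ^ (-(5 / 48) : ℝ) :=
            Real.rpow_le_rpow_of_nonpos (by positivity) (by linarith) (by norm_num)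
        _ = (2:ℝ) ^ (5 / 48 : ℝ) * ((β / (h / 4)) ^ (4 / 3 : ℝ)) ^ (-(5 / 48) : ℝ) := by
            rw [Real.div_rpow hx0.le (by norm_num), Real.rpow_neg (by norm_num : (0:ℝ) ≤ 2),
              div_inv_eq_mul, mul_comm]
        _ = (2:ℝ) ^ (5 / 48 : ℝ) * (β / (h / 4)) ^ (-(5 / 36) : ℝ) := by
            rw [← Real.rpow_mul (by positivity)]
            norm_num
        _ = (2:ℝ) ^ (5 / 48 : ℝ) * (4 * β / h) ^ (-(5 / 36) : ℝ) := by
            congr 2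
            field_simp
        _ = C1 * h ^ (5 / 36 : ℝ) := by
            rw [hC1, Real.div_rpow (by positivity) h0.le, Real.rpow_neg h0.le, div_inv_eq_mul,
              mul_assoc]
    by_cases h3a : 3 * (a + 1) ≤ n
    · have hB : μ.real {w | ∃ t : ℝ, b ≤ t ∧ t ≤ b + h ∧ OA (a + 1) n (opE ω t w)} ≤
          3 * C * C1 / D * h ^ (5 / 36 : ℝ) := by
        apply arm_interval hdp hb h0
        intro p hp1 hp2
        have hp3 : p ≤ 1 := by linarith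
        have hwin' : |p - 1 / 2| ≤ β * (n:ℝ) ^ (-(3 / 4 : ℝ)) := by
          rw [abs_of_nonneg (by linarith)]
          linarith
        obtain ⟨-, h5, -⟩ := hst n hn1 p hwin'
        have h6 := (harm n hn1).2
        have h8 := OA_le_arm hp1 hp3 (a := a + 1) (N := n) (by omega) h3a
        rw [← hD] at h8
        have h9 : D * PQ p (An (a + 1) n) (fun F => OA (a + 1) n ↑F) ≤
            3 * C * C1 * h ^ (5 / 36 : ℝ) := by
          have h10 := mul_le_mul_of_nonneg_left h7 hC.le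
          nlinarith
        rw [div_mul_eq_mul_div, le_div_iff₀ hD0]
        linarith
      rw [hsum]
      have hsub : μ.real {w | ∃ t : ℝ, b ≤ t ∧ t ≤ b + h ∧
          ∀ R : ℕ, OA (a + 1) (a + 1 + R) (opE ω t w)} ≤
          μ.real {w | ∃ t : ℝ, b ≤ t ∧ t ≤ b + h ∧ OA (a + 1) n (opE ω t w)} := by
        refine measureReal_mono ?_ (measure_ne_top _ _)
        rintro w ⟨t, k1, k2, k3⟩
        refine ⟨t, k1, k2, ?_⟩
        have := k3 (n - (a + 1))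
        rwa [show a + 1 + (n - (a + 1)) = n by omega] at this
      linarith
    · have hn3 : (n:ℝ) ≤ 3 * (a + 1) := by
        have : n ≤ 3 * (a + 1) := by omega
        exact_mod_cast this
      have h11 : 1 ≤ C2 * (n:ℝ) ^ (-(5 / 48) : ℝ) := by
        rw [Real.rpow_neg hn0.le, ← div_eq_mul_inv, le_div_iff₀ (by positivity), one_mul, hC2]
        exact Real.rpow_le_rpow hn0.le hn3 (by norm_num)
      have h12 := mul_le_mul_of_nonneg_left h7 hC20.le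
      rw [hsum]
      have h13 : C2 * (C1 * h ^ (5 / 36 : ℝ)) = C2 * C1 * h ^ (5 / 36 : ℝ) := by ring
      linarith

/-- From a bound with the radius to a bound with the length of the interval. -/
theorem UB_of_radius {X : ℕ → ℕ → Set Edg → Prop} {η : ℝ} (hη : 0 < η) (a : ℕ)
    (h : ∃ C : ℝ, 0 < C ∧
      ∀ (Ω : Type) [MeasurableSpace Ω] (μ : Measure Ω) [IsProbabilityMeasure μ]
        (ω : ℝ → Ω → Edg → Bool), IsDP μ ω → ∀ R : ℕ, a + 1 ≤ R → ∀ b : ℝ, 0 ≤ b →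
        μ.real {w | ∃ t : ℝ, b ≤ t ∧ t ≤ b + (R:ℝ) ^ (-(3 / 4) : ℝ) ∧
          X (a + 1) R (opE ω t w)} ≤ C * (R:ℝ) ^ (-η)) :
    UB X (4 / 3 * η) a := by
  obtain ⟨C, hC, h⟩ := h
  refine ⟨C * 2 ^ η + (a + 2 : ℝ) ^ η, by positivity, ?_⟩
  intro Ω _ μ _ ω hdp b l hb h0 h1
  have hx1 : 1 ≤ l ^ (-(4 / 3) : ℝ) := Real.one_le_rpow_of_pos_of_le_one_of_nonpos h0 h1 (by norm_num)
  have hx0 : 0 < l ^ (-(4 / 3) : ℝ) := by linarith
  obtain ⟨n, hn⟩ : ∃ n : ℕ, n = ⌊l ^ (-(4 / 3) : ℝ)⌋₊ := ⟨_, rfl⟩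
  have hn1 : 1 ≤ n := by rw [hn]; exact Nat.le_floor (by exact_mod_cast hx1)
  have hn0 : (0:ℝ) < n := by exact_mod_cast hn1
  have hnx : (n:ℝ) ≤ l ^ (-(4 / 3) : ℝ) := by rw [hn]; exact Nat.floor_le hx0.le
  have hxn : l ^ (-(4 / 3) : ℝ) < n + 1 := by rw [hn]; exact Nat.lt_floor_add_one _
  have hl : l ≤ (n:ℝ) ^ (-(3 / 4) : ℝ) := by
    have h2 := Real.rpow_le_rpow_of_nonpos hn0 hnx (by norm_num : (-(3 / 4) : ℝ) ≤ 0)
    rw [← Real.rpow_mul h0.le] at h2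
    norm_num at h2
    norm_num
    exact h2
  have hlp : 0 < l ^ (4 / 3 * η) := Real.rpow_pos_of_pos h0 _
  have hconv : ∀ {c : ℝ}, 0 < c → (l ^ (-(4 / 3) : ℝ) / c) ^ (-η) = c ^ η * l ^ (4 / 3 * η) := by
    intro c hc
    rw [Real.div_rpow hx0.le hc.le, ← Real.rpow_mul h0.le, Real.rpow_neg hc.le, div_inv_eq_mul,
      mul_comm]
    congr 2
    ring
  by_cases han : a + 1 ≤ n
  · have h3 := h Ω μ ω hdp n han b hb
    have h4 : μ.real {w | ∃ t : ℝ, b ≤ t ∧ t ≤ b + l ∧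
        ∀ R : ℕ, X (a + 1) (a + 1 + R) (opE ω t w)} ≤
        μ.real {w | ∃ t : ℝ, b ≤ t ∧ t ≤ b + (n:ℝ) ^ (-(3 / 4) : ℝ) ∧
          X (a + 1) n (opE ω t w)} := by
      refine measureReal_mono ?_ (measure_ne_top _ _)
      rintro w ⟨t, k1, k2, k3⟩
      refine ⟨t, k1, by linarith, ?_⟩
      have := k3 (n - (a + 1))
      rwa [show a + 1 + (n - (a + 1)) = n by omega] at this
    have h5 : (n:ℝ) ^ (-η) ≤ 2 ^ η * l ^ (4 / 3 * η) := by
      rw [← hconv (by norm_num : (0:ℝ) < 2)]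
      apply Real.rpow_le_rpow_of_nonpos (by positivity) _ (by linarith)
      have : (1:ℝ) ≤ n := by exact_mod_cast hn1
      linarith
    have h6 : 0 ≤ (a + 2 : ℝ) ^ η * l ^ (4 / 3 * η) := by positivity
    have h7 := mul_le_mul_of_nonneg_left h5 hC.le
    calc _ ≤ C * (n:ℝ) ^ (-η) := h4.trans h3
      _ ≤ C * (2 ^ η * l ^ (4 / 3 * η)) := h7
      _ ≤ _ := by rw [add_mul]; linarith
  · have h2 : l ^ (-(4 / 3) : ℝ) / (a + 2 : ℝ) ≤ 1 := by
      rw [div_le_one (by positivity)]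
      have : n ≤ a := by omega
      have : (n:ℝ) ≤ a := by exact_mod_cast this
      linarith
    have h3 : 1 ≤ (a + 2 : ℝ) ^ η * l ^ (4 / 3 * η) := by
      rw [← hconv (by positivity)]
      exact Real.one_le_rpow_of_pos_of_le_one_of_nonpos (by positivity) h2 (by linarith)
    have h4 : μ.real {w | ∃ t : ℝ, b ≤ t ∧ t ≤ b + l ∧
        ∀ R : ℕ, X (a + 1) (a + 1 + R) (opE ω t w)} ≤ 1 := measureReal_le_one
    have h6 : 0 ≤ C * 2 ^ η * l ^ (4 / 3 * η) := by positivity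
    rw [add_mul]
    linarith

/-- Upper bound for the dimension in `[0, 1]`. -/
theorem dimU0 {X : ℕ → ℕ → Set Edg → Prop} {γ : ℝ} (h0 : 0 < γ) (h1 : γ < 1)
    (hU : ∀ a, UB X γ a) {Ω : Type} [MeasurableSpace Ω] {μ : Measure Ω} [IsProbabilityMeasure μ]
    {ω : ℝ → Ω → Edg → Bool} (hdp : IsDP μ ω) :
    ∀ᵐ w ∂μ, dimH (ET X ω w) ≤ ENNReal.ofReal (1 - γ) := by
  have hall : ∀ᵐ w ∂μ, ∀ a : ℕ, dimH {t : ℝ | 0 ≤ t ∧ t ≤ 1 ∧
      ∀ R : ℕ, X (a + 1) (a + 1 + R) (opE ω t w)} ≤ ENNReal.ofReal (1 - γ) := by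
    rw [ae_all_iff]
    intro a
    obtain ⟨C, hC, hU⟩ := hU a
    refine Pool.Agent.Y681.DP.upa γ h0 h1 Ω μ
      (fun w => {t : ℝ | 0 ≤ t ∧ t ≤ 1 ∧ ∀ R : ℕ, X (a + 1) (a + 1 + R) (opE ω t w)}) C
      (fun n i => toMeasurable μ {w | ∃ t : ℝ, (i:ℝ) / 2 ^ n ≤ t ∧ t ≤ (i:ℝ) / 2 ^ n + (1 / 2) ^ n ∧
        ∀ R : ℕ, X (a + 1) (a + 1 + R) (opE ω t w)})
      (fun w t ht => ⟨ht.1, ht.2.1⟩) (fun n i => measurableSet_toMeasurable _ _) ?_ ?_
    · intro n i _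
      have h2 := hU Ω μ ω hdp ((i:ℝ) / 2 ^ n) ((1 / 2) ^ n) (by positivity) (by positivity)
        (pow_le_one₀ (by norm_num) (by norm_num))
      refine le_trans (le_of_eq ?_) h2
      simp only [Measure.real, measure_toMeasurable]
    · refine Filter.Eventually.of_forall fun w t ht n i _ hi1 hi2 => ?_
      refine subset_toMeasurable _ _ ⟨t, hi1, ?_, ht.2.2⟩
      rw [add_div] at hi2
      rw [one_div_pow]
      exact hi2
  filter_upwards [hall] with w hw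
  have he : ET X ω w = ⋃ a : ℕ, {t : ℝ | 0 ≤ t ∧ t ≤ 1 ∧
      ∀ R : ℕ, X (a + 1) (a + 1 + R) (opE ω t w)} := by
    ext t
    simp only [ET, Set.mem_setOf_eq, Set.mem_iUnion]
    constructor
    · rintro ⟨k1, k2, a, k3⟩
      exact ⟨a, k1, k2, k3⟩
    · rintro ⟨a, k1, k2, k3⟩
      exact ⟨k1, k2, a, k3⟩
  rw [he, dimH_iUnion]
  exact iSup_le hw

end Pool.Agent.Y554.DP
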